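import Mathlib

/-! Prime factors `q = k p ± 1` of `f(p)` with `k ≤ Z`: at most `D Z` primes `p`. -/

set_option autoImplicit false

namespace Pool.Agent.Lib.MP_5893d7_nt.Pr

open Finset Polynomial

/-- The sum of the absolute values of the coefficients. -/
private noncomputable def raA (f : ℤ[X]) : ℤ := ∑ i ∈ range (f.natDegree + 1), |f.coeff i|

private lemma ra_one_le (f : ℤ[X]) (h0 : f.eval 0 ≠ 0) : 1 ≤ raA f := by
  have h1 : 1 ≤ |f.coeff 0| := by
    rw [coeff_zero_eq_eval_zero]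
    exact Int.one_le_abs h0
  refine h1.trans ?_
  unfold raA
  exact single_le_sum (f := fun i => |f.coeff i|) (fun i _ => abs_nonneg _) (mem_range.2 (by omega))

private lemma ra_bound (f : ℤ[X]) (k b : ℤ) (hk : 1 ≤ k) (hb : |b| = 1) :
    |(scaleRoots f k).eval b| ≤ raA f * k ^ f.natDegree := by
  rw [eval_eq_sum_range, natDegree_scaleRoots, raA, sum_mul]
  refine (abs_sum_le_sum_abs _ _).trans (sum_le_sum fun i hi => ?_)
  rw [coeff_scaleRoots, abs_mul, abs_mul, abs_pow, abs_pow, hb, one_pow, mul_one,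
    abs_of_nonneg (by linarith : (0 : ℤ) ≤ k)]
  exact mul_le_mul_of_nonneg_left (pow_le_pow_right₀ hk (Nat.sub_le _ _)) (abs_nonneg _)

private lemma ra_ne (f : ℤ[X]) (h0 : f.eval 0 ≠ 0) (k b : ℤ) (hk : raA f < k) (hb : |b| = 1) :
    (scaleRoots f k).eval b ≠ 0 := by
  intro h
  have hA := ra_one_le f h0
  have hk1 : 1 ≤ k := by linarith
  have hc : 1 ≤ |f.coeff 0| := by
    rw [coeff_zero_eq_eval_zero]
    exact Int.one_le_abs h0
  rw [eval_eq_sum_range, natDegree_scaleRoots, sum_range_succ'] at h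
  simp only [coeff_scaleRoots, pow_zero, mul_one, Nat.sub_zero] at h
  have h1 : |f.coeff 0| * k ^ f.natDegree * k ≤ (∑ i ∈ range f.natDegree, |f.coeff (i + 1)|) *
      k ^ f.natDegree := by
    have h2 : f.coeff 0 * k ^ f.natDegree = -∑ i ∈ range f.natDegree,
        f.coeff (i + 1) * k ^ (f.natDegree - (i + 1)) * b ^ (i + 1) := by linarith
    have h3 : |f.coeff 0| * k ^ f.natDegree = |∑ i ∈ range f.natDegree,
        f.coeff (i + 1) * k ^ (f.natDegree - (i + 1)) * b ^ (i + 1)| := by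
      rw [← abs_neg (∑ i ∈ range f.natDegree, _), ← h2, abs_mul, abs_pow,
        abs_of_nonneg (by linarith : (0 : ℤ) ≤ k)]
    rw [h3]
    refine (mul_le_mul_of_nonneg_right (abs_sum_le_sum_abs _ _) (by linarith)).trans ?_
    rw [sum_mul, sum_mul]
    refine sum_le_sum fun i hi => ?_
    have hi' : i < f.natDegree := mem_range.1 hi
    rw [abs_mul, abs_mul, abs_pow, abs_pow, hb, one_pow, mul_one,
      abs_of_nonneg (by linarith : (0 : ℤ) ≤ k), mul_assoc, ← pow_succ]
    exact mul_le_mul_of_nonneg_left (pow_le_pow_right₀ hk1 (by omega)) (abs_nonneg _)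
  have h4 : (∑ i ∈ range f.natDegree, |f.coeff (i + 1)|) ≤ raA f := by
    rw [raA, sum_range_succ']
    linarith
  have hkd : 0 < k ^ f.natDegree := pow_pos (by linarith) _
  have h5 : (|f.coeff 0| * k) * k ^ f.natDegree ≤ raA f * k ^ f.natDegree := by
    refine le_trans (le_of_eq ?_) (h1.trans (mul_le_mul_of_nonneg_right h4 hkd.le))
    ring
  have h6 : |f.coeff 0| * k ≤ raA f := le_of_mul_le_mul_right h5 hkd
  nlinarith

private lemma ra_dvd (f : ℤ[X]) (k p q ε : ℤ) (hq : q = k * p + ε) (h : q ∣ f.eval p) :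
    q ∣ (scaleRoots f k).eval (-ε) := by
  have h8 := sub_dvd_eval_sub (k * p) (-ε) (scaleRoots f k)
  have h9 : k * p - -ε = q := by linarith
  rw [h9] at h8
  have h10 : (scaleRoots f k).eval (k * p) = k ^ f.natDegree * f.eval p := by
    have := scaleRoots_eval₂_mul (p := f) (RingHom.id ℤ) p k
    simpa [eval₂_id] using this
  rw [h10] at h8
  have h12 := dvd_sub (h.mul_left (k ^ f.natDegree)) h8
  simpa using h12

/-- Few prime factors above `k`. -/
private lemma ra_card (n k d : ℕ) (hk : 1 < k) (hn : n ≠ 0) (h : n < k ^ (d + 1)) :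
    (n.primeFactors.filter (fun q => k ≤ q)).card ≤ d := by
  have h1 : k ^ (n.primeFactors.filter (fun q => k ≤ q)).card ≤ n := by
    calc k ^ (n.primeFactors.filter (fun q => k ≤ q)).card
        ≤ ∏ q ∈ n.primeFactors.filter (fun q => k ≤ q), q :=
          pow_card_le_prod _ _ _ fun q hq => (mem_filter.1 hq).2
      _ ≤ ∏ q ∈ n.primeFactors, q :=
          prod_le_prod_of_subset_of_one_le' (filter_subset _ _)
            fun q hq _ => (Nat.prime_of_mem_primeFactors hq).one_le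
      _ ≤ n := Nat.le_of_dvd (Nat.pos_of_ne_zero hn) (Nat.prod_primeFactors_dvd n)
  have h2 := (Nat.pow_lt_pow_iff_right hk).1 (h1.trans_lt h)
  omega

theorem range_a (f : ℤ[X]) (h0 : f.eval 0 ≠ 0) : ∃ K D : ℕ, ∀ Z : ℕ, ∀ A : Finset ℕ,
    (∀ p ∈ A, ∃ k q : ℕ, K ≤ k ∧ k ≤ Z ∧ q.Prime ∧ (q = k * p + 1 ∨ q + 1 = k * p) ∧
      (q : ℤ) ∣ f.eval (p : ℤ)) → A.card ≤ D * Z := by
  classical
  have hA := ra_one_le f h0
  obtain ⟨a, ha⟩ : ∃ a : ℕ, (a : ℤ) = raA f := ⟨(raA f).toNat, Int.toNat_of_nonneg (by linarith)⟩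
  have ha1 : 1 ≤ a := by
    have : (1 : ℤ) ≤ a := by rw [ha]; exact hA
    exact_mod_cast this
  refine ⟨a + 1, 2 * f.natDegree + 1, fun Z A h => ?_⟩
  rcases A.eq_empty_or_nonempty with rfl | ⟨p0, hp0⟩
  · simp
  have hZ : 1 ≤ Z := by
    obtain ⟨k, q, h1, h2, -⟩ := h p0 hp0
    omega
  let N : ℕ → ℤ → ℕ := fun k ε => ((scaleRoots f (k : ℤ)).eval (-ε)).natAbs
  let P : ℕ → ℤ → Finset ℕ := fun k ε => (N k ε).primeFactors.filter (fun q => k ≤ q)
  have hP : ∀ k : ℕ, a + 1 ≤ k → ∀ ε : ℤ, |(-ε)| = 1 → (P k ε).card ≤ f.natDegree := by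
    intro k hk ε hε
    have hk' : raA f < (k : ℤ) := by rw [← ha]; exact_mod_cast hk
    refine ra_card _ _ _ (by omega) ?_ ?_
    · exact Int.natAbs_ne_zero.2 (ra_ne f h0 k (-ε) hk' hε)
    · have h1 := ra_bound f k (-ε) (by linarith) hε
      have h2 : ((N k ε : ℕ) : ℤ) < ((k ^ (f.natDegree + 1) : ℕ) : ℤ) := by
        rw [Int.natCast_natAbs]
        refine h1.trans_lt ?_
        push_cast
        rw [pow_succ, mul_comm]
        exact mul_lt_mul_of_pos_left hk' (pow_pos (by linarith) _)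
      exact_mod_cast h2
  let S : ℕ → Finset ℕ := fun k =>
    (P k 1).image (fun q => (q - 1) / k) ∪ (P k (-1)).image (fun q => (q + 1) / k)
  have hS : ∀ k ∈ Icc (a + 1) Z, (S k).card ≤ 2 * f.natDegree := by
    intro k hk
    have hk1 := (mem_Icc.1 hk).1
    calc (S k).card ≤ _ := card_union_le _ _
      _ ≤ (P k 1).card + (P k (-1)).card := add_le_add card_image_le card_image_le
      _ ≤ f.natDegree + f.natDegree := add_le_add (hP k hk1 1 (by norm_num))
          (hP k hk1 (-1) (by norm_num))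
      _ = 2 * f.natDegree := by ring
  have hsub : A ⊆ {1} ∪ (Icc (a + 1) Z).biUnion S := by
    intro p hp
    obtain ⟨k, q, hk, hkZ, hq, hqk, hd⟩ := h p hp
    rw [mem_union, mem_singleton]
    by_cases hp1 : p = 1
    · exact Or.inl hp1
    right
    rw [mem_biUnion]
    refine ⟨k, mem_Icc.2 ⟨hk, hkZ⟩, ?_⟩
    have hq2 := hq.two_le
    have hk0 : 0 < k := by omega
    have hp0' : p ≠ 0 := by
      rintro rfl
      rcases hqk with h1 | h1 <;> omega
    have hp2 : 2 ≤ p := by omega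
    have hkp : 2 * k ≤ k * p := by nlinarith
    have hkq : k ≤ q := by rcases hqk with h1 | h1 <;> omega
    have hk' : raA f < (k : ℤ) := by rw [← ha]; exact_mod_cast hk
    rcases hqk with h1 | h1
    · refine mem_union_left _ (mem_image.2 ⟨q, mem_filter.2 ⟨?_, hkq⟩, ?_⟩)
      · rw [Nat.mem_primeFactors]
        refine ⟨hq, ?_, Int.natAbs_ne_zero.2 (ra_ne f h0 k _ hk' (by norm_num))⟩
        exact Int.natCast_dvd.1 (ra_dvd f k p q 1 (by rw [h1]; push_cast; ring) hd)
      · rw [h1, Nat.add_sub_cancel]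
        exact Nat.mul_div_cancel_left p hk0
    · refine mem_union_right _ (mem_image.2 ⟨q, mem_filter.2 ⟨?_, hkq⟩, ?_⟩)
      · rw [Nat.mem_primeFactors]
        refine ⟨hq, ?_, Int.natAbs_ne_zero.2 (ra_ne f h0 k _ hk' (by norm_num))⟩
        have h2 : (q : ℤ) + 1 = k * p := by exact_mod_cast h1
        exact Int.natCast_dvd.1 (ra_dvd f k p q (-1) (by linarith) hd)
      · rw [h1]
        exact Nat.mul_div_cancel_left p hk0
  have hcard : (Icc (a + 1) Z).card ≤ Z := by
    rw [Nat.card_Icc]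
    omega
  calc A.card ≤ _ := card_le_card hsub
    _ ≤ ({1} : Finset ℕ).card + ((Icc (a + 1) Z).biUnion S).card := card_union_le _ _
    _ ≤ 1 + (Icc (a + 1) Z).card * (2 * f.natDegree) := by
        rw [card_singleton]
        exact Nat.add_le_add_left (card_biUnion_le_card_mul _ _ _ hS) 1
    _ ≤ 1 + Z * (2 * f.natDegree) := by
        exact Nat.add_le_add_left (Nat.mul_le_mul_right _ hcard) 1
    _ ≤ (2 * f.natDegree + 1) * Z := by nlinarith

end Pool.Agent.Lib.MP_5893d7_nt.Pr
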