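import Mathlib

/-! Prime factors `q = k p ± 1` of `f(p)` with large `k`, `f` irreducible of degree 2 or 3. -/

set_option autoImplicit false

namespace Pool.Agent.Lib.MP_5893d7_nt.Pr

open Finset Polynomial

/-- An irreducible integer polynomial of degree at least two has no rational root. -/
private lemma rb_noroot (f : ℤ[X]) (hf : Irreducible f) (h2 : 2 ≤ f.natDegree) (r : ℚ) :
    f.eval₂ (Int.castRingHom ℚ) r ≠ 0 := by
  intro h
  have hp : f.IsPrimitive := hf.isPrimitive (by omega)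
  have h1 : Irreducible (f.map (Int.castRingHom ℚ)) :=
    (IsPrimitive.Int.irreducible_iff_irreducible_map_cast hp).1 hf
  have h3 : IsRoot (f.map (Int.castRingHom ℚ)) r := by
    rw [IsRoot.def, eval_map]
    exact h
  have h4 := degree_eq_one_of_irreducible_of_root h1 h3
  have h5 : (f.map (Int.castRingHom ℚ)).natDegree = f.natDegree :=
    natDegree_map_eq_of_injective (Int.castRingHom ℚ).injective_int f
  have h6 : (f.map (Int.castRingHom ℚ)).natDegree = 1 := natDegree_eq_of_degree_eq_some h4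
  omega

private lemma rb_scale (f : ℤ[X]) (hf : Irreducible f) (h2 : 2 ≤ f.natDegree) (j b : ℤ)
    (hj : j ≠ 0) : (scaleRoots f j).eval b ≠ 0 := by
  intro h
  have hj' : (j : ℚ) ≠ 0 := by exact_mod_cast hj
  have h1 := scaleRoots_eval₂_mul (p := f) (Int.castRingHom ℚ) ((b : ℚ) / j) j
  have h4 : (Int.castRingHom ℚ) j * ((b : ℚ) / j) = (Int.castRingHom ℚ) b := by
    simp only [eq_intCast]
    field_simp
  rw [h4, eval₂_at_apply, h, map_zero] at h1
  have h5 : ((Int.castRingHom ℚ) j) ^ f.natDegree ≠ 0 := by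
    simp only [eq_intCast]
    exact pow_ne_zero _ hj'
  rcases mul_eq_zero.1 h1.symm with h6 | h6
  · exact h5 h6
  · exact rb_noroot f hf h2 _ h6

/-- The sum of the absolute values of the coefficients. -/
private noncomputable def rbA (f : ℤ[X]) : ℤ := ∑ i ∈ range (f.natDegree + 1), |f.coeff i|

private lemma rb_bound (f : ℤ[X]) (j b : ℤ) (hj : 1 ≤ |j|) (hb : 1 ≤ |b|) :
    |(scaleRoots f j).eval b| ≤ rbA f * (|b| * |j|) ^ f.natDegree := by
  rw [eval_eq_sum_range, natDegree_scaleRoots, rbA, sum_mul]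
  refine (abs_sum_le_sum_abs _ _).trans (sum_le_sum fun i hi => ?_)
  rw [coeff_scaleRoots, abs_mul, abs_mul, abs_pow, abs_pow, mul_pow]
  have hi' : i ≤ f.natDegree := Nat.lt_succ_iff.1 (mem_range.1 hi)
  have h1 : |j| ^ (f.natDegree - i) ≤ |j| ^ f.natDegree :=
    pow_le_pow_right₀ hj (Nat.sub_le _ _)
  have h2 : |b| ^ i ≤ |b| ^ f.natDegree := pow_le_pow_right₀ hb hi'
  calc |f.coeff i| * |j| ^ (f.natDegree - i) * |b| ^ i
      ≤ |f.coeff i| * |j| ^ f.natDegree * |b| ^ f.natDegree := by gcongr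
    _ = |f.coeff i| * (|b| ^ f.natDegree * |j| ^ f.natDegree) := by ring

private lemma rb_bound1 (f : ℤ[X]) (b : ℤ) (hb : 1 ≤ |b|) :
    |f.eval b| ≤ rbA f * |b| ^ f.natDegree := by
  have h := rb_bound f 1 b (by simp) hb
  simpa using h

private lemma rb_one_le (f : ℤ[X]) (h0 : f.eval 0 ≠ 0) : 1 ≤ rbA f := by
  have h1 : 1 ≤ |f.coeff 0| := by
    rw [coeff_zero_eq_eval_zero]
    exact Int.one_le_abs h0
  refine h1.trans ?_
  unfold rbA
  exact single_le_sum (f := fun i => |f.coeff i|) (fun i _ => abs_nonneg _) (mem_range.2 (by omega))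

/-- The integer part of the argument: `f(p) = q m`, `q ≡ ε` modulo `p`. -/
private lemma rb_int (f : ℤ[X]) (hf : Irreducible f) (h2 : 2 ≤ f.natDegree) (h3 : f.natDegree ≤ 3)
    (h0 : f.eval 0 ≠ 0) (p q m k ε : ℤ) (hε : ε = 1 ∨ ε = -1) (hq : q = k * p + ε)
    (hm : f.eval p = q * m) :
    m = ε * f.eval 0 ∨ ∃ j : ℤ, j ≠ 0 ∧ m = ε * f.eval 0 + j * p ∧
      |m| ≤ rbA f * (|f.eval 0| * |j|) ^ 3 := by
  have hε2 : ε * ε = 1 := by rcases hε with h | h <;> rw [h] <;> norm_num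
  have hεa : |ε| = 1 := by rcases hε with h | h <;> rw [h] <;> norm_num
  have h4 : p ∣ f.eval p - f.eval 0 := by
    have := sub_dvd_eval_sub p 0 f
    simpa using this
  have h5 : p ∣ m - ε * f.eval 0 := by
    obtain ⟨w, hw⟩ := h4
    refine ⟨ε * w - ε * k * m, ?_⟩
    have h6 : f.eval 0 = q * m - p * w := by rw [← hm]; linarith
    rw [h6, hq]
    linear_combination (-m) * hε2
  obtain ⟨j, hj⟩ := h5
  by_cases hj0 : j = 0
  · left
    rw [hj0, mul_zero] at hj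
    linarith
  · right
    refine ⟨j, hj0, by linarith, ?_⟩
    have h7 : m ∣ (scaleRoots f j).eval (-(ε * f.eval 0)) := by
      have h8 := sub_dvd_eval_sub (j * p) (-(ε * f.eval 0)) (scaleRoots f j)
      have h9 : j * p - -(ε * f.eval 0) = m := by linarith
      rw [h9] at h8
      have h10 : (scaleRoots f j).eval (j * p) = j ^ f.natDegree * f.eval p := by
        have := scaleRoots_eval₂_mul (p := f) (RingHom.id ℤ) p j
        simpa [eval₂_id] using this
      rw [h10] at h8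
      have h11 : m ∣ j ^ f.natDegree * f.eval p := by
        rw [hm]
        exact Dvd.intro_left (j ^ f.natDegree * q) (by ring)
      have h12 := dvd_sub h11 h8
      simpa using h12
    have h13 := rb_scale f hf h2 j (-(ε * f.eval 0)) hj0
    have h14 : |m| ≤ |(scaleRoots f j).eval (-(ε * f.eval 0))| :=
      Int.le_of_dvd (abs_pos.2 h13) ((abs_dvd_abs _ _).2 h7)
    have h15 : |(-(ε * f.eval 0))| = |f.eval 0| := by
      rw [abs_neg, abs_mul, hεa, one_mul]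
    have hj1 : 1 ≤ |j| := Int.one_le_abs hj0
    have hc1 : 1 ≤ |f.eval 0| := Int.one_le_abs h0
    have h16 := rb_bound f j (-(ε * f.eval 0)) hj1 (by rw [h15]; exact hc1)
    rw [h15] at h16
    refine h14.trans (h16.trans ?_)
    have h17 : 1 ≤ |f.eval 0| * |j| := one_le_mul_of_one_le_of_one_le hc1 hj1
    exact mul_le_mul_of_nonneg_left (pow_le_pow_right₀ h17 h3)
      (by have := rb_one_le f h0; linarith)

/-- The estimates. -/
private lemma rb_real (a c x L p k q m j : ℝ) (ha : 1 ≤ a) (hc : 1 ≤ c) (hL : 1 ≤ L)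
    (hx : (27 * a ^ 4 * c ^ 3 + c + 2) * L ^ 14 ≤ x) (hp : x / L ^ 2 ≤ p) (hpx : p ≤ x)
    (hk : x / L ^ 2 ≤ k) (hq : k * p - 1 ≤ q) (hm0 : 0 ≤ m) (hqm : q * m ≤ a * p ^ 3)
    (hj : 1 ≤ j) (hmj : j * p ≤ m + c) (hmu : m ≤ a * (c * j) ^ 3) : False := by
  have hL2 : 0 < L ^ 2 := by positivity
  have hL14 : L ^ 14 = L ^ 12 * L ^ 2 := by ring
  have hL12 : 1 ≤ L ^ 12 := one_le_pow₀ hL
  have hL4 : 1 ≤ L ^ 4 := one_le_pow₀ hL
  obtain ⟨M, hM⟩ : ∃ M, M = 27 * a ^ 4 * c ^ 3 + c + 2 := ⟨_, rfl⟩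
  have ha4 : 1 ≤ a ^ 4 := one_le_pow₀ ha
  have hc3 : 1 ≤ c ^ 3 := one_le_pow₀ hc
  have hac : 0 ≤ 27 * a ^ 4 * c ^ 3 := by positivity
  have hM2 : 2 ≤ M := by rw [hM]; linarith
  have hMc : c ≤ M := by rw [hM]; linarith
  rw [← hM] at hx
  have hP : M * L ^ 12 ≤ x / L ^ 2 := by
    rw [le_div_iff₀ hL2]
    calc M * L ^ 12 * L ^ 2 = M * L ^ 14 := by rw [hL14]; ring
      _ ≤ x := hx
  have hML : M ≤ M * L ^ 12 := le_mul_of_one_le_right (by linarith) hL12
  have hp1 : 2 ≤ p := by linarith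
  have hk1 : 2 ≤ k := by linarith
  have hx0 : 0 < x := by linarith
  have hkp : 2 ≤ k * p := by nlinarith
  have hq2 : k * p / 2 ≤ q := by linarith
  -- `m k ≤ 2 a p ^ 2`
  have h1 : m * k ≤ 2 * a * x ^ 2 := by
    have h2 : k * p / 2 * m ≤ a * p ^ 3 := (mul_le_mul_of_nonneg_right hq2 hm0).trans hqm
    have h3 : (m * k) * p ≤ (2 * a * p ^ 2) * p := by nlinarith
    have h4 : m * k ≤ 2 * a * p ^ 2 := le_of_mul_le_mul_right h3 (by linarith)
    have h5 : p ^ 2 ≤ x ^ 2 := pow_le_pow_left₀ (by linarith) hpx 2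
    nlinarith
  have hxk : x ≤ k * L ^ 2 := by rwa [div_le_iff₀ hL2] at hk
  have hxp : x ≤ p * L ^ 2 := by rwa [div_le_iff₀ hL2] at hp
  have h6 : m ≤ 2 * a * x * L ^ 2 := by
    have h7 : m * x ≤ (2 * a * x * L ^ 2) * x := by
      calc m * x ≤ m * (k * L ^ 2) := mul_le_mul_of_nonneg_left hxk hm0
        _ = (m * k) * L ^ 2 := by ring
        _ ≤ (2 * a * x ^ 2) * L ^ 2 := mul_le_mul_of_nonneg_right h1 hL2.le
        _ = (2 * a * x * L ^ 2) * x := by ring
    exact le_of_mul_le_mul_right h7 hx0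
  have hcx : c ≤ a * x * L ^ 2 := by
    have h8 : c ≤ x := by
      have : x / L ^ 2 ≤ x := div_le_self hx0.le (one_le_pow₀ hL)
      linarith
    have h9 : 1 ≤ a * L ^ 2 := one_le_mul_of_one_le_of_one_le ha (one_le_pow₀ hL)
    nlinarith
  have h10 : j ≤ 3 * a * L ^ 4 := by
    have h11 : j * p ≤ 3 * a * x * L ^ 2 := by linarith
    have h12 : j * x ≤ (3 * a * L ^ 4) * x := by
      calc j * x ≤ j * (p * L ^ 2) := mul_le_mul_of_nonneg_left hxp (by linarith)
        _ = (j * p) * L ^ 2 := by ring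
        _ ≤ (3 * a * x * L ^ 2) * L ^ 2 := mul_le_mul_of_nonneg_right h11 hL2.le
        _ = (3 * a * L ^ 4) * x := by ring
    exact le_of_mul_le_mul_right h12 hx0
  have h13 : m ≤ 27 * a ^ 4 * c ^ 3 * L ^ 12 := by
    have h14 : (c * j) ^ 3 ≤ (c * (3 * a * L ^ 4)) ^ 3 :=
      pow_le_pow_left₀ (by positivity) (mul_le_mul_of_nonneg_left h10 (by linarith)) 3
    calc m ≤ a * (c * j) ^ 3 := hmu
      _ ≤ a * (c * (3 * a * L ^ 4)) ^ 3 := mul_le_mul_of_nonneg_left h14 (by linarith)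
      _ = 27 * a ^ 4 * c ^ 3 * L ^ 12 := by ring
  have h15 : p ≤ m + c := by
    have : p ≤ j * p := le_mul_of_one_le_left (by linarith) hj
    linarith
  have h16 : M * L ^ 12 ≤ m + c := by linarith
  rw [hM] at h16
  nlinarith

theorem range_b (f : ℤ[X]) (hf : Irreducible f) (h2 : 2 ≤ f.natDegree) (h3 : f.natDegree ≤ 3) :
    ∃ X : ℕ, ∀ x : ℕ, X ≤ x → ∀ p k q : ℕ, (x : ℝ) / Real.log x ^ 2 ≤ p → p ≤ x →
      (x : ℝ) / Real.log x ^ 2 ≤ k → q.Prime → (q = k * p + 1 ∨ q + 1 = k * p) →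
      (q : ℤ) ∣ f.eval (p : ℤ) → (f.eval (p : ℤ)).natAbs = (f.eval 0).natAbs * q := by
  have h0 : f.eval 0 ≠ 0 := by
    have h := rb_scale f hf h2 1 0 one_ne_zero
    simpa using h
  obtain ⟨a, ha⟩ : ∃ a : ℝ, a = (rbA f : ℝ) := ⟨_, rfl⟩
  obtain ⟨c, hc⟩ : ∃ c : ℝ, c = ((|f.eval 0| : ℤ) : ℝ) := ⟨_, rfl⟩
  have ha1 : 1 ≤ a := by rw [ha]; exact_mod_cast rb_one_le f h0
  have hc1 : 1 ≤ c := by rw [hc]; exact_mod_cast Int.one_le_abs h0
  have hlim : ∀ᶠ x : ℝ in Filter.atTop, (27 * a ^ 4 * c ^ 3 + c + 2) * Real.log x ^ 14 ≤ x := by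
    have hM : 0 < 27 * a ^ 4 * c ^ 3 + c + 2 := by positivity
    have h := (Real.isLittleO_pow_log_id_atTop (n := 14)).def (inv_pos.2 hM)
    filter_upwards [h, Filter.eventually_ge_atTop (1 : ℝ)] with x hx hx1
    simp only [id, Real.norm_eq_abs, abs_of_nonneg (by linarith : (0 : ℝ) ≤ x)] at hx
    have h1 : Real.log x ^ 14 ≤ (27 * a ^ 4 * c ^ 3 + c + 2)⁻¹ * x := (le_abs_self _).trans hx
    rw [← div_eq_inv_mul, le_div_iff₀ hM] at h1
    linarith
  obtain ⟨X0, hX0⟩ := Filter.eventually_atTop.1 hlim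
  refine ⟨max ⌈X0⌉₊ 3, ?_⟩
  intro x hx p k q hp hpx hk hqp hqk hqd
  have hx3 : 3 ≤ x := le_trans (le_max_right _ _) hx
  have hxX : X0 ≤ (x : ℝ) :=
    (Nat.le_ceil X0).trans (by exact_mod_cast le_trans (le_max_left _ _) hx)
  have hL : 1 ≤ Real.log x := by
    rw [Real.le_log_iff_exp_le (by positivity)]
    have h1 := Real.exp_one_lt_d9
    have h2 : (3 : ℝ) ≤ x := by exact_mod_cast hx3
    linarith
  obtain ⟨m, hm⟩ := hqd
  obtain ⟨ε, hε, hq⟩ : ∃ ε : ℤ, (ε = 1 ∨ ε = -1) ∧ (q : ℤ) = k * p + ε := by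
    rcases hqk with h | h
    · exact ⟨1, Or.inl rfl, by rw [h]; push_cast; ring⟩
    · refine ⟨-1, Or.inr rfl, ?_⟩
      have : (q : ℤ) + 1 = k * p := by exact_mod_cast h
      linarith
  have hεa : |ε| = 1 := by rcases hε with h | h <;> rw [h] <;> norm_num
  rcases rb_int f hf h2 h3 h0 p q m k ε hε hq hm with h | ⟨j, hj0, hmj, hmb⟩
  · rw [hm, h, Int.natAbs_mul, Int.natAbs_mul, Int.natAbs_natCast]
    have h4 : ε.natAbs = 1 := by rcases hε with h | h <;> rw [h] <;> rfl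
    rw [h4, one_mul, mul_comm]
  · exfalso
    have hxr := hX0 x hxX
    have hL2 : 0 < Real.log x ^ 2 := by positivity
    have hp0 : (0 : ℝ) < p := lt_of_lt_of_le (by positivity) hp
    have hp1 : 1 ≤ p := by
      have : 0 < p := by exact_mod_cast hp0
      omega
    have hpa : |(p : ℤ)| = p := abs_of_nonneg (by positivity)
    have h5 := rb_bound1 f p (by rw [hpa]; exact_mod_cast hp1)
    rw [hpa] at h5
    have h6 : |f.eval (p : ℤ)| ≤ rbA f * (p : ℤ) ^ 3 := by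
      refine h5.trans (mul_le_mul_of_nonneg_left (pow_le_pow_right₀ (by exact_mod_cast hp1) h3) ?_)
      have := rb_one_le f h0
      linarith
    have h7 : (q : ℤ) * |m| ≤ rbA f * (p : ℤ) ^ 3 := by
      rw [hm, abs_mul, abs_of_nonneg (by positivity : (0 : ℤ) ≤ (q : ℤ))] at h6
      exact h6
    have h8 : |j| * (p : ℤ) ≤ |m| + |f.eval 0| := by
      have h9 : j * (p : ℤ) = m - ε * f.eval 0 := by linarith
      calc |j| * (p : ℤ) = |j * (p : ℤ)| := by rw [abs_mul, hpa]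
        _ = |m - ε * f.eval 0| := by rw [h9]
        _ ≤ |m| + |ε * f.eval 0| := abs_sub _ _
        _ = |m| + |f.eval 0| := by rw [abs_mul, hεa, one_mul]
    refine rb_real a c x (Real.log x) p k q ((|m| : ℤ) : ℝ) ((|j| : ℤ) : ℝ) ha1 hc1 hL hxr hp
      (by exact_mod_cast hpx) hk ?_ (by exact_mod_cast abs_nonneg m) ?_
      (by exact_mod_cast Int.one_le_abs hj0) ?_ ?_
    · have h10 : (q : ℝ) = k * p + ε := by exact_mod_cast hq
      have h11 : (-1 : ℝ) ≤ ε := by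
        rcases hε with h | h <;> rw [h] <;> norm_num
      linarith
    · rw [ha]
      exact_mod_cast h7
    · rw [hc]
      exact_mod_cast h8
    · rw [ha, hc]
      exact_mod_cast hmb

end Pool.Agent.Lib.MP_5893d7_nt.Pr
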