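import Pool.Agent.Lib.MP_5893d7_nt.Pr.Zt
import Pool.Agent.Lib.MP_60829e_nt.ZK.NFa
import Pool.Agent.Lib.MP_60829e_nt.ZK.Div

/-! The sum of `1 / l` over the primes `l` with a root of `f` modulo `l` diverges. -/

set_option autoImplicit false

namespace Pool.Agent.Lib.MP_5893d7_nt.Pr

open Finset Polynomial NumberField IsDedekindDomain

private theorem root_of_norm (f : ℤ[X]) (a : ℤ) (K : Type) [Field K] [NumberField K] (β : 𝓞 K)
    (hβ : aeval β (f.scaleRoots a) = 0) (P : HeightOneSpectrum (𝓞 K)) {l : ℕ} (hl : l.Prime)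
    (hN : Ideal.absNorm P.asIdeal = l) (ha : ¬ (l : ℤ) ∣ a) : ∃ r : ℤ, (l : ℤ) ∣ f.eval r := by
  classical
  have hfact : Fact l.Prime := ⟨hl⟩
  have hcard : Nat.card (𝓞 K ⧸ P.asIdeal) = l := by
    rw [← hN, Ideal.absNorm_apply, Submodule.cardQuot_apply]
  have hfin : Finite (𝓞 K ⧸ P.asIdeal) := Nat.finite_of_card_ne_zero (by rw [hcard]; exact hl.ne_zero)
  have hft : Fintype (𝓞 K ⧸ P.asIdeal) := Fintype.ofFinite _
  let e : ZMod l ≃+* (𝓞 K ⧸ P.asIdeal) := ZMod.ringEquivOfPrime _ hl (by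
    rw [← Nat.card_eq_fintype_card, hcard])
  let π : 𝓞 K →+* ZMod l := (e.symm : (𝓞 K ⧸ P.asIdeal) →+* ZMod l).comp (Ideal.Quotient.mk P.asIdeal)
  have h1 : eval₂ (Int.castRingHom (ZMod l)) (π β) (f.scaleRoots a) = 0 := by
    have h2 : π (aeval β (f.scaleRoots a)) = 0 := by rw [hβ, map_zero]
    rw [aeval_def, hom_eval₂] at h2
    have h3 : π.comp (algebraMap ℤ (𝓞 K)) = Int.castRingHom (ZMod l) := RingHom.ext_int _ _
    rwa [h3] at h2
  have ha' : ((a : ℤ) : ZMod l) ≠ 0 := by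
    intro h
    exact ha ((ZMod.intCast_zmod_eq_zero_iff_dvd a l).mp h)
  set r' : ZMod l := ((a : ℤ) : ZMod l)⁻¹ * π β with hr'
  have h4 : ((a : ℤ) : ZMod l) * r' = π β := by
    rw [hr', ← mul_assoc, mul_inv_cancel₀ ha', one_mul]
  have h5 := scaleRoots_eval₂_mul (p := f) (Int.castRingHom (ZMod l)) r' a
  have h6 : (Int.castRingHom (ZMod l)) a * r' = π β := h4
  rw [h6, h1] at h5
  have h7 : eval₂ (Int.castRingHom (ZMod l)) r' f = 0 := by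
    rcases mul_eq_zero.mp h5.symm with h | h
    · exact absurd h (pow_ne_zero _ ha')
    · exact h
  refine ⟨(r'.val : ℤ), ?_⟩
  rw [← ZMod.intCast_zmod_eq_zero_iff_dvd]
  have h8 : ((f.eval (r'.val : ℤ) : ℤ) : ZMod l) = eval₂ (Int.castRingHom (ZMod l)) (((r'.val : ℤ) : ℤ) : ZMod l) f := by
    have := hom_eval₂ f (RingHom.id ℤ) (Int.castRingHom (ZMod l)) (r'.val : ℤ)
    simpa [eval₂_id] using this
  rw [h8]
  have h9 : (((r'.val : ℤ) : ℤ) : ZMod l) = r' := by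
    rw [Int.cast_natCast]
    exact ZMod.natCast_zmod_val r'
  rw [h9]
  exact h7

private theorem inv_sq_sum (W : Finset ℕ) :
    ∑ n ∈ W, (1 : ℝ) / (n : ℝ) ^ 2 ≤ 2 := by
  have hs : Summable (fun n : ℕ => (1 : ℝ) / (n : ℝ) ^ 2) :=
    Real.summable_one_div_nat_pow.mpr (by norm_num)
  have h1 : ∑ n ∈ W, (1 : ℝ) / (n : ℝ) ^ 2 ≤ ∑' n : ℕ, (1 : ℝ) / (n : ℝ) ^ 2 :=
    hs.sum_le_tsum W (fun n _ => by positivity)
  have h2 : ∑' n : ℕ, (1 : ℝ) / (n : ℝ) ^ 2 = Real.pi ^ 2 / 6 := hasSum_zeta_two.tsum_eq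
  have h3 : Real.pi ^ 2 / 6 ≤ 2 := by
    have := Real.pi_lt_d2
    have := Real.pi_pos
    nlinarith
  linarith

theorem sum_root (f : ℤ[X]) (hf : Irreducible f) (hd : 1 ≤ f.natDegree) (L : ℕ) (B : ℝ) :
    ∃ S : Finset ℕ, (∀ l ∈ S, l.Prime ∧ L < l ∧ ∃ r : ℤ, (l : ℤ) ∣ f.eval r) ∧
      B ≤ ∑ l ∈ S, (1 : ℝ) / l := by
  classical
  have hprim : f.IsPrimitive := hf.isPrimitive (by omega)
  have hirr : Irreducible (f.map (Int.castRingHom ℚ)) :=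
    (IsPrimitive.Int.irreducible_iff_irreducible_map_cast hprim).mp hf
  have hfact : Fact (Irreducible (f.map (Int.castRingHom ℚ))) := ⟨hirr⟩
  have hfd : Module.Finite ℚ (AdjoinRoot (f.map (Int.castRingHom ℚ))) :=
    (AdjoinRoot.powerBasis hirr.ne_zero).finite
  have hcz : CharZero (AdjoinRoot (f.map (Int.castRingHom ℚ))) := algebraRat.charZero _
  have hnf : NumberField (AdjoinRoot (f.map (Int.castRingHom ℚ))) := ⟨⟩
  set K := AdjoinRoot (f.map (Int.castRingHom ℚ)) with hK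
  set α : K := AdjoinRoot.root (f.map (Int.castRingHom ℚ)) with hα
  have hroot : aeval α f = 0 := by
    have h1 := AdjoinRoot.eval₂_root (f.map (Int.castRingHom ℚ))
    rw [eval₂_map] at h1
    rw [aeval_def]
    have h2 : (AdjoinRoot.of (f.map (Int.castRingHom ℚ))).comp (Int.castRingHom ℚ) = algebraMap ℤ K :=
      RingHom.ext_int _ _
    rw [← h2]
    exact h1
  set a : ℤ := f.leadingCoeff with ha
  have ha0 : a ≠ 0 := leadingCoeff_ne_zero.mpr hf.ne_zero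
  have hint : IsIntegral ℤ (a • α) := isIntegral_leadingCoeff_smul f α hroot
  let β : 𝓞 K := ⟨a • α, hint⟩
  have hβ : aeval β (f.scaleRoots a) = 0 := by
    have h1 : aeval (algebraMap ℤ K a * α) (f.scaleRoots a) = 0 := scaleRoots_aeval_eq_zero hroot
    have h2 : algebraMap (𝓞 K) K (aeval β (f.scaleRoots a)) = aeval (algebraMap (𝓞 K) K β) (f.scaleRoots a) :=
      (aeval_algebraMap_apply K β (f.scaleRoots a)).symm
    have h3 : algebraMap (𝓞 K) K β = algebraMap ℤ K a * α := by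
      change a • α = _
      rw [Algebra.smul_def]
    rw [h3, h1] at h2
    exact (map_eq_zero_iff _ (FaithfulSMul.algebraMap_injective (𝓞 K) K)).mp h2
  obtain ⟨𝔸, h𝔸⟩ := MP60829e.ZK.exists_ar K
  set L' : ℕ := max L a.natAbs with hL'
  -- primes of norm a prime number
  obtain ⟨T, hT⟩ := sum_norm K (𝔸.d * B + 𝔸.d * 2 + 𝔸.d * (L' + 1))
  set T1 := T.filter (fun x => 𝔸.f x = 1 ∧ L' < 𝔸.pr x) with hT1
  set T2 := T.filter (fun x => 𝔸.pr x ≤ L') with hT2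
  set T3 := T.filter (fun x => 2 ≤ 𝔸.f x) with hT3
  have hN : ∀ x, Ideal.absNorm x.asIdeal = 𝔸.pr x ^ 𝔸.f x := fun x => by
    rw [← 𝔸.N_eq x, h𝔸]
  have hcov : ∀ x ∈ T, x ∈ T1 ∪ T2 ∪ T3 := by
    intro x hx
    have h1 := 𝔸.f_pos x
    rw [mem_union, mem_union, hT1, hT2, hT3, mem_filter, mem_filter, mem_filter]
    by_cases h2 : 2 ≤ 𝔸.f x
    · exact Or.inr ⟨hx, h2⟩
    · by_cases h3 : 𝔸.pr x ≤ L'
      · exact Or.inl (Or.inr ⟨hx, h3⟩)
      · exact Or.inl (Or.inl ⟨hx, by omega, by omega⟩)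
  have hd0 : (0 : ℝ) ≤ 𝔸.d := Nat.cast_nonneg _
  have hs : ∑ x ∈ T, ((Ideal.absNorm x.asIdeal : ℕ) : ℝ)⁻¹ ≤
      ∑ x ∈ T1, ((Ideal.absNorm x.asIdeal : ℕ) : ℝ)⁻¹ + ∑ x ∈ T2, ((Ideal.absNorm x.asIdeal : ℕ) : ℝ)⁻¹
        + ∑ x ∈ T3, ((Ideal.absNorm x.asIdeal : ℕ) : ℝ)⁻¹ := by
    have h0 : ∀ x : HeightOneSpectrum (𝓞 K), (0 : ℝ) ≤ ((Ideal.absNorm x.asIdeal : ℕ) : ℝ)⁻¹ :=
      fun x => by positivity
    calc _ ≤ ∑ x ∈ T1 ∪ T2 ∪ T3, ((Ideal.absNorm x.asIdeal : ℕ) : ℝ)⁻¹ :=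
          sum_le_sum_of_subset_of_nonneg hcov fun x _ _ => h0 x
      _ ≤ ∑ x ∈ T1 ∪ T2, ((Ideal.absNorm x.asIdeal : ℕ) : ℝ)⁻¹ + _ := by
          rw [← sum_union_inter]
          exact le_add_of_nonneg_right (sum_nonneg fun x _ => h0 x)
      _ ≤ _ := by
          refine add_le_add_left ?_ _
          rw [← sum_union_inter (s₁ := T1)]
          exact le_add_of_nonneg_right (sum_nonneg fun x _ => h0 x)
  have hpr1 : ∀ x, (1 : ℝ) ≤ 𝔸.pr x := fun x => by exact_mod_cast (𝔸.prime_pr x).one_lt.le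
  -- T3
  have h3 : ∑ x ∈ T3, ((Ideal.absNorm x.asIdeal : ℕ) : ℝ)⁻¹ ≤ 𝔸.d * 2 := by
    have h4 : ∑ x ∈ T3, ((Ideal.absNorm x.asIdeal : ℕ) : ℝ)⁻¹
        ≤ ∑ x ∈ T3, (fun n : ℕ => (1 : ℝ) / (n : ℝ) ^ 2) (𝔸.pr x) := by
      refine sum_le_sum fun x hx => ?_
      have h5 : 2 ≤ 𝔸.f x := (mem_filter.mp hx).2
      rw [hN x]
      push_cast
      rw [one_div]
      apply inv_anti₀ (by have := hpr1 x; positivity)
      exact pow_le_pow_right₀ (hpr1 x) h5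
    refine h4.trans ((MP60829e.ZK.over_sum 𝔸 T3 (fun n : ℕ => (1 : ℝ) / (n : ℝ) ^ 2)
      fun n => by positivity).trans ?_)
    refine mul_le_mul_of_nonneg_left ?_ hd0
    exact inv_sq_sum _
  -- T2
  have h2 : ∑ x ∈ T2, ((Ideal.absNorm x.asIdeal : ℕ) : ℝ)⁻¹ ≤ 𝔸.d * (L' + 1) := by
    have h4 : ∑ x ∈ T2, ((Ideal.absNorm x.asIdeal : ℕ) : ℝ)⁻¹
        ≤ ∑ x ∈ T2, (fun _ : ℕ => (1 : ℝ)) (𝔸.pr x) := by
      refine sum_le_sum fun x hx => ?_
      have h5 := Pool.Agent.MP_d0f9e0_co.FD.two_le_absNorm K x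
      exact inv_le_one_of_one_le₀ (by exact_mod_cast (by omega : 1 ≤ Ideal.absNorm x.asIdeal))
    refine h4.trans ((MP60829e.ZK.over_sum 𝔸 T2 (fun _ : ℕ => (1 : ℝ))
      fun n => by positivity).trans ?_)
    refine mul_le_mul_of_nonneg_left ?_ hd0
    rw [sum_const, nsmul_eq_mul, mul_one]
    have h5 : (T2.image 𝔸.pr).card ≤ L' + 1 := by
      calc _ ≤ (range (L' + 1)).card := card_le_card fun n hn => by
            obtain ⟨x, hx, rfl⟩ := mem_image.mp hn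
            exact mem_range.mpr (Nat.lt_succ_of_le (mem_filter.mp hx).2)
        _ = L' + 1 := card_range _
    exact_mod_cast h5
  -- T1
  have h1 : ∑ x ∈ T1, ((Ideal.absNorm x.asIdeal : ℕ) : ℝ)⁻¹
      ≤ 𝔸.d * ∑ l ∈ T1.image 𝔸.pr, (1 : ℝ) / l := by
    have h4 : ∑ x ∈ T1, ((Ideal.absNorm x.asIdeal : ℕ) : ℝ)⁻¹
        = ∑ x ∈ T1, (fun n : ℕ => (1 : ℝ) / (n : ℝ)) (𝔸.pr x) := by
      refine sum_congr rfl fun x hx => ?_
      beta_reduce
      rw [hN x, (mem_filter.mp hx).2.1, pow_one, one_div]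
    rw [h4]
    exact MP60829e.ZK.over_sum 𝔸 T1 (fun n : ℕ => (1 : ℝ) / (n : ℝ)) fun n => by positivity
  refine ⟨T1.image 𝔸.pr, ?_, ?_⟩
  · intro l hl
    obtain ⟨x, hx, rfl⟩ := mem_image.mp hl
    obtain ⟨_, hfx, hLx⟩ := mem_filter.mp hx
    refine ⟨𝔸.prime_pr x, lt_of_le_of_lt (le_max_left _ _) hLx, ?_⟩
    refine root_of_norm f a K β hβ x (𝔸.prime_pr x) (by rw [hN x, hfx, pow_one]) ?_
    intro hdv
    have h5 : 𝔸.pr x ∣ a.natAbs := Int.natCast_dvd.mp hdv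
    have h6 := Nat.le_of_dvd (Nat.pos_of_ne_zero (Int.natAbs_ne_zero.mpr ha0)) h5
    have h7 : a.natAbs ≤ L' := le_max_right _ _
    omega
  · have h5 : (𝔸.d : ℝ) * B ≤ 𝔸.d * ∑ l ∈ T1.image 𝔸.pr, (1 : ℝ) / l := by linarith
    have hdpos : (0 : ℝ) < 𝔸.d := by
      by_contra hneg
      have hz : (𝔸.d : ℝ) = 0 := le_antisymm (not_lt.mp hneg) hd0
      have hz' : 𝔸.d = 0 := by exact_mod_cast hz
      obtain ⟨T', hT'⟩ := sum_norm K 1
      have hne : T'.Nonempty := by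
        rw [nonempty_iff_ne_empty]
        rintro rfl
        rw [sum_empty] at hT'
        linarith
      obtain ⟨x, hx⟩ := hne
      have := 𝔸.over_le (𝔸.pr x) {x} (fun y hy => by rw [mem_singleton] at hy; rw [hy])
      rw [card_singleton, hz'] at this
      omega
    exact le_of_mul_le_mul_left h5 hdpos

end Pool.Agent.Lib.MP_5893d7_nt.Pr
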