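import Pool.Agent.Lib.MP_5893d7_nt.Pr.Defs

/-! `Rare`: finite sets, unions, small prime factors. -/

set_option autoImplicit false

namespace Pool.Agent.Lib.MP_5893d7_nt.Pr

open Finset

theorem Rare.mono {A B : Set ℕ} (h : Rare B) (hAB : ∀ p, p.Prime → p ∈ A → p ∈ B) : Rare A := by
  intro η hη
  obtain ⟨X, hX⟩ := h η hη
  exact ⟨X, fun x hx T hT => hX x hx T fun p hp =>
    ⟨(hT p hp).1, (hT p hp).2.1, hAB p (hT p hp).1 (hT p hp).2.2⟩⟩

theorem Rare.union {A B : Set ℕ} (hA : Rare A) (hB : Rare B) : Rare (A ∪ B) := by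
  classical
  intro η hη
  obtain ⟨X, hX⟩ := hA (η / 2) (by linarith)
  obtain ⟨Y, hY⟩ := hB (η / 2) (by linarith)
  refine ⟨max X Y, fun x hx T hT => ?_⟩
  have h1 := hX x (le_of_max_le_left hx) (T.filter (· ∈ A)) fun p hp => by
    rw [mem_filter] at hp
    exact ⟨(hT p hp.1).1, (hT p hp.1).2.1, hp.2⟩
  have h2 := hY x (le_of_max_le_right hx) (T.filter (· ∉ A)) fun p hp => by
    rw [mem_filter] at hp
    exact ⟨(hT p hp.1).1, (hT p hp.1).2.1, ((hT p hp.1).2.2).resolve_left hp.2⟩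
  have h3 : T.card = (T.filter (· ∈ A)).card + (T.filter (· ∉ A)).card :=
    (card_filter_add_card_filter_not _).symm
  rw [h3]
  push_cast
  linarith

theorem rare_le (n : ℕ) : Rare {p | p ≤ n} := by
  intro η hη
  have ht : Filter.Tendsto (fun x : ℕ => η * (Nat.primeCounting x : ℝ)) Filter.atTop Filter.atTop :=
    Filter.Tendsto.const_mul_atTop hη
      (tendsto_natCast_atTop_atTop.comp Nat.tendsto_primeCounting)
  obtain ⟨X, hX⟩ := Filter.eventually_atTop.mp (ht.eventually_ge_atTop ((n : ℝ) + 1))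
  refine ⟨X, fun x hx T hT => le_trans ?_ (hX x hx)⟩
  have h1 : T.card ≤ n + 1 := by
    calc T.card ≤ (range (n + 1)).card := card_le_card fun p hp =>
          mem_range.mpr (Nat.lt_succ_of_le (hT p hp).2.2)
      _ = n + 1 := card_range _
  exact_mod_cast h1

theorem small (K : ℕ) : Rare {p | ∃ q : ℕ, q.Prime ∧ q ≤ K * p ∧ q ∣ Nat.fib p * lucas p} := by
  intro η hη
  obtain ⟨C, hC, hmain⟩ := main_count
  have ht : Filter.Tendsto (fun x : ℕ => η * Real.log (x : ℝ)) Filter.atTop Filter.atTop :=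
    Filter.Tendsto.const_mul_atTop hη (Real.tendsto_log_atTop.comp tendsto_natCast_atTop_atTop)
  obtain ⟨X, hX⟩ := Filter.eventually_atTop.mp (ht.eventually_ge_atTop (C * ((K : ℝ) + 1)))
  refine ⟨max X 2, fun x hx T hT => ?_⟩
  have hx2 : 2 ≤ x := le_of_max_le_right hx
  have hxr : (2 : ℝ) ≤ x := by exact_mod_cast hx2
  have hlog : 0 < Real.log x := Real.log_pos (by linarith)
  have h1 := hmain x hx2 ((K : ℝ) + 1) (by have : (0 : ℝ) ≤ K := Nat.cast_nonneg K; linarith)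
  have h2 := hX x (le_of_max_le_left hx)
  have h3 : T.card ≤ ∑ p ∈ (Icc 1 x).filter Nat.Prime,
      ((Icc 1 ⌊((K : ℝ) + 1) * p⌋₊).filter (fun q => q.Prime ∧ q ∣ Nat.fib p * lucas p)).card := by
    rw [card_eq_sum_ones]
    calc ∑ p ∈ T, 1 ≤ ∑ p ∈ T, ((Icc 1 ⌊((K : ℝ) + 1) * p⌋₊).filter
          (fun q => q.Prime ∧ q ∣ Nat.fib p * lucas p)).card := by
          refine sum_le_sum fun p hp => ?_
          obtain ⟨q, hq, hqK, hqd⟩ := (hT p hp).2.2
          rw [Nat.one_le_iff_ne_zero, ← Nat.pos_iff_ne_zero, card_pos]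
          refine ⟨q, mem_filter.mpr ⟨mem_Icc.mpr ⟨hq.pos, ?_⟩, hq, hqd⟩⟩
          apply Nat.le_floor
          have h4 : (q : ℝ) ≤ (K : ℝ) * p := by exact_mod_cast hqK
          have h5 : (0 : ℝ) ≤ p := Nat.cast_nonneg p
          linarith
      _ ≤ _ := by
          refine sum_le_sum_of_subset fun p hp => ?_
          rw [mem_filter, mem_Icc]
          exact ⟨⟨(hT p hp).1.pos, (hT p hp).2.1⟩, (hT p hp).1⟩
  have h4 : (T.card : ℝ) ≤ C * ((K : ℝ) + 1) * (Nat.primeCounting x : ℝ) / Real.log x :=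
    le_trans (by exact_mod_cast h3) h1
  refine h4.trans ?_
  rw [div_le_iff₀ hlog]
  have h5 : (0 : ℝ) ≤ Nat.primeCounting x := Nat.cast_nonneg _
  nlinarith

end Pool.Agent.Lib.MP_5893d7_nt.Pr
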