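import Pool.Agent.Lib.MP_5893d7_nt.Pr.Av
import Pool.Agent.Lib.MP_5893d7_nt.Pr.Rt
import Pool.Agent.Lib.MP_5893d7_nt.Pr.Sm

/-! Prime values of a polynomial at primes are rare. -/

set_option autoImplicit false

namespace Pool.Agent.Lib.MP_5893d7_nt.Pr

open Finset Polynomial

private theorem finite_value (f : ℤ[X]) (hd : 1 ≤ f.natDegree) (c : ℤ) : {n : ℕ | f.eval (n : ℤ) = c}.Finite := by
  have h1 : (f - C c) ≠ 0 := by
    intro h
    have h2 : f = C c := sub_eq_zero.mp h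
    rw [h2, natDegree_C] at hd
    omega
  have h2 : {n : ℕ | f.eval (n : ℤ) = c} ⊆ (fun n : ℕ => (n : ℤ)) ⁻¹' {z : ℤ | (f - C c).IsRoot z} := by
    intro n hn
    change (f - C c).eval (n : ℤ) = 0
    rw [eval_sub, eval_C, (show f.eval (n : ℤ) = c from hn), sub_self]
  refine Set.Finite.subset (Set.Finite.preimage ?_ (finite_setOfPred_isRoot h1)) h2
  intro a _ b _ h
  have h3 : (a : ℤ) = (b : ℤ) := h
  exact_mod_cast h3

private theorem prod_le_exp (S : Finset ℕ) (hS : ∀ l ∈ S, 2 < l) :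
    ∏ l ∈ S, (1 - 1 / (l : ℝ)) ≤ Real.exp (- ∑ l ∈ S, (1 : ℝ) / l) := by
  rw [← sum_neg_distrib, Real.exp_sum]
  refine prod_le_prod (fun l hl => ?_) fun l _ => ?_
  · have h1 : (2 : ℝ) < l := by exact_mod_cast hS l hl
    have h2 : (1 : ℝ) / l ≤ 1 := by
      rw [div_le_one (by linarith)]
      linarith
    linarith
  · have := Real.add_one_le_exp (-(1 / (l : ℝ)))
    linarith

theorem prime_values (f : ℤ[X]) (hf : Irreducible f) (hd : 1 ≤ f.natDegree) (h0 : f.eval 0 ≠ 0) :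
    Rare {p | ∃ q : ℕ, q.Prime ∧ (f.eval (p : ℤ)).natAbs = (f.eval 0).natAbs * q} := by
  classical
  obtain ⟨C, hC, hav⟩ := avoid
  intro η hη
  set c : ℕ := (f.eval 0).natAbs with hc
  have hc0 : c ≠ 0 := Int.natAbs_ne_zero.mpr h0
  -- the finite set `S`
  set B : ℝ := Real.log (2 * C / η) with hB
  obtain ⟨S, hS, hSB⟩ := sum_root f hf hd (max c 2) B
  choose! r hr using fun l (hl : l ∈ S) => (hS l hl).2.2
  have hSl : ∀ l ∈ S, l.Prime ∧ 2 < l ∧ ¬ (l : ℤ) ∣ r l := by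
    intro l hl
    refine ⟨(hS l hl).1, lt_of_le_of_lt (le_max_right _ _) (hS l hl).2.1, ?_⟩
    intro hdv
    have h1 : (l : ℤ) ∣ f.eval (r l) - f.eval 0 := by
      have h2 : r l - 0 ∣ f.eval (r l) - f.eval 0 := sub_dvd_eval_sub _ _ _
      rw [sub_zero] at h2
      exact hdv.trans h2
    have h2 : (l : ℤ) ∣ f.eval 0 := by
      have h3 := dvd_sub (hr l hl) h1
      rwa [sub_sub_cancel] at h3
    have h3 : l ∣ c := Int.natCast_dvd.mp h2
    have h4 := Nat.le_of_dvd (Nat.pos_of_ne_zero hc0) h3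
    have h5 : c < l := lt_of_le_of_lt (le_max_left _ _) (hS l hl).2.1
    omega
  obtain ⟨X, hX⟩ := hav S r hSl
  -- the exceptional primes
  have hfin : (⋃ l ∈ S, ({n : ℕ | f.eval (n : ℤ) = (c * l : ℕ)} ∪
      {n : ℕ | f.eval (n : ℤ) = -((c * l : ℕ) : ℤ)})).Finite :=
    Set.Finite.biUnion S.finite_toSet fun l _ =>
      (finite_value f hd _).union (finite_value f hd _)
  obtain ⟨M, hM⟩ := hfin.bddAbove
  obtain ⟨Y, hY⟩ := rare_le M (η / 2) (by linarith)
  refine ⟨max X Y, fun x hx T hT => ?_⟩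
  have h1 := hX x (le_of_max_le_left hx) (T.filter (fun p => M < p)) fun p hp => by
    rw [mem_filter] at hp
    obtain ⟨hpT, hpM⟩ := hp
    obtain ⟨hpp, hpx, q, hq, hfq⟩ := hT p hpT
    refine ⟨hpp, hpx, fun l hl hdv => ?_⟩
    have h2 : (l : ℤ) ∣ f.eval (p : ℤ) := by
      have h3 : (p : ℤ) - r l ∣ f.eval (p : ℤ) - f.eval (r l) := sub_dvd_eval_sub _ _ _
      have h4 := dvd_add (hdv.trans h3) (hr l hl)
      rwa [sub_add_cancel] at h4
    have h3 : l ∣ c * q := by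
      rw [← hfq]
      exact Int.natCast_dvd.mp h2
    have h4 : l ∣ q := by
      rcases (hSl l hl).1.dvd_mul.mp h3 with h | h
      · have h5 := Nat.le_of_dvd (Nat.pos_of_ne_zero hc0) h
        have h6 : c < l := lt_of_le_of_lt (le_max_left _ _) (hS l hl).2.1
        omega
      · exact h
    have h5 : l = q := (Nat.prime_dvd_prime_iff_eq (hSl l hl).1 hq).mp h4
    subst h5
    have h6 : p ∈ (⋃ l ∈ S, ({n : ℕ | f.eval (n : ℤ) = (c * l : ℕ)} ∪
        {n : ℕ | f.eval (n : ℤ) = -((c * l : ℕ) : ℤ)})) := by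
      rw [Set.mem_iUnion₂]
      refine ⟨l, hl, ?_⟩
      have h7 := Int.natAbs_eq (f.eval (p : ℤ))
      rw [hfq] at h7
      exact h7
    have h7 := hM h6
    omega
  have h2 := hY x (le_of_max_le_right hx) (T.filter (fun p => ¬ M < p)) fun p hp => by
    rw [mem_filter] at hp
    exact ⟨(hT p hp.1).1, (hT p hp.1).2.1, not_lt.mp hp.2⟩
  have h3 : T.card = (T.filter (fun p => M < p)).card + (T.filter (fun p => ¬ M < p)).card :=
    (card_filter_add_card_filter_not _).symm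
  have h4 : C * (∏ l ∈ S, (1 - 1 / (l : ℝ))) ≤ η / 2 := by
    have h5 := prod_le_exp S fun l hl => (hSl l hl).2.1
    have h6 : Real.exp (- ∑ l ∈ S, (1 : ℝ) / l) ≤ Real.exp (-B) := Real.exp_le_exp.mpr (by linarith)
    have h7 : Real.exp (-B) = η / (2 * C) := by
      rw [hB, Real.exp_neg, Real.exp_log (by positivity), inv_div]
    calc C * (∏ l ∈ S, (1 - 1 / (l : ℝ))) ≤ C * (η / (2 * C)) :=
          mul_le_mul_of_nonneg_left (h5.trans (h6.trans h7.le)) hC.le
      _ = η / 2 := by field_simp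
  have h5 : (0 : ℝ) ≤ Nat.primeCounting x := Nat.cast_nonneg _
  rw [h3]
  push_cast
  have h6 := mul_le_mul_of_nonneg_right h4 h5
  linarith

end Pool.Agent.Lib.MP_5893d7_nt.Pr
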