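import Pool.Agent.Lib.MP_5893d7_nt.Pr.Sm
import Pool.Agent.Lib.MP_5893d7_nt.Pr.Va
import Pool.Agent.Lib.MP_5893d7_nt.Pr.Ra
import Pool.Agent.Lib.MP_5893d7_nt.Pr.Rb

/-! `gcd(f(p), U_p V_p) = 1` for almost all primes `p`. -/

set_option autoImplicit false

namespace Pool.Agent.Lib.MP_5893d7_nt.Pr

open Finset Polynomial

/-- the primes `p` for which `U_p V_p` and `f(p)` have a common prime factor -/
def Bad (f : ℤ[X]) : Set ℕ :=
  {p | ∃ q : ℕ, q.Prime ∧ q ∣ Nat.fib p * lucas p ∧ (q : ℤ) ∣ f.eval (p : ℤ)}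

/-- the sum of the absolute values of the coefficients -/
def csum (f : ℤ[X]) : ℕ := ∑ i ∈ range (f.natDegree + 1), (f.coeff i).natAbs

private theorem form {p q : ℕ} (hp : p.Prime) (h5 : 5 < p) (hq : q.Prime)
    (h : q ∣ Nat.fib p * lucas p) : ∃ k : ℕ, 1 ≤ k ∧ (q = k * p + 1 ∨ q + 1 = k * p) := by
  have hq5 : q ≠ 5 := by
    rintro rfl
    have := five_dvd hp h
    omega
  have hq2 := hq.two_le
  rcases dvd_of_dvd hp hq hq5 h with ⟨k, hk⟩ | ⟨k, hk⟩
  · refine ⟨k, ?_, Or.inl ?_⟩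
    · rcases Nat.eq_zero_or_pos k with rfl | h1
      · rw [mul_zero] at hk; omega
      · exact h1
    · rw [mul_comm k p]; omega
  · refine ⟨k, ?_, Or.inr ?_⟩
    · rcases Nat.eq_zero_or_pos k with rfl | h1
      · rw [mul_zero] at hk; omega
      · exact h1
    · rw [mul_comm k p]; omega

private theorem tail_small : ∀ D : ℕ, ∀ η : ℝ, 0 < η → ∃ X : ℕ, ∀ x : ℕ, X ≤ x →
    (D : ℝ) * ((x : ℝ) / Real.log x ^ 2 + 1) ≤ η * (Nat.primeCounting x : ℝ) := by
  intro D η hη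
  have ht1 : Filter.Tendsto (fun x : ℕ => (η / 2) * Real.log (x : ℝ)) Filter.atTop Filter.atTop :=
    Filter.Tendsto.const_mul_atTop (by linarith)
      (Real.tendsto_log_atTop.comp tendsto_natCast_atTop_atTop)
  have ht2 : Filter.Tendsto (fun x : ℕ => (η / 2) * (Nat.primeCounting x : ℝ)) Filter.atTop Filter.atTop :=
    Filter.Tendsto.const_mul_atTop (by linarith)
      (tendsto_natCast_atTop_atTop.comp Nat.tendsto_primeCounting)
  obtain ⟨X1, hX1⟩ := Filter.eventually_atTop.mp (ht1.eventually_ge_atTop ((D : ℝ) * 200))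
  obtain ⟨X2, hX2⟩ := Filter.eventually_atTop.mp (ht2.eventually_ge_atTop (D : ℝ))
  refine ⟨max (max X1 X2) 2, fun x hx => ?_⟩
  have hx2 : 2 ≤ x := le_of_max_le_right hx
  have h1 := hX1 x (le_of_max_le_left (le_of_max_le_left hx))
  have h2 := hX2 x (le_of_max_le_right (le_of_max_le_left hx))
  have hxr : (2 : ℝ) ≤ x := by exact_mod_cast hx2
  have hlog : 0 < Real.log x := Real.log_pos (by linarith)
  have h3 := pi_lower x hx2
  have hπ : (0 : ℝ) ≤ Nat.primeCounting x := Nat.cast_nonneg _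
  have h4 : (x : ℝ) / Real.log x ^ 2 = (x : ℝ) / Real.log x / Real.log x := by
    rw [sq, div_div]
  have h5 : (D : ℝ) * ((x : ℝ) / Real.log x ^ 2) ≤ (η / 2) * (Nat.primeCounting x : ℝ) := by
    rw [h4, mul_div_assoc', div_le_iff₀ hlog]
    calc (D : ℝ) * ((x : ℝ) / Real.log x) ≤ D * (200 * (Nat.primeCounting x : ℝ)) :=
          mul_le_mul_of_nonneg_left h3 (Nat.cast_nonneg _)
      _ = (D : ℝ) * 200 * (Nat.primeCounting x : ℝ) := by ring
      _ ≤ (η / 2) * Real.log x * (Nat.primeCounting x : ℝ) := mul_le_mul_of_nonneg_right h1 hπ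
      _ = _ := by ring
  linarith

private theorem rare_irr (f : ℤ[X]) (hf : Irreducible f) (h3 : f.natDegree ≤ 3) : Rare (Bad f) := by
  classical
  -- constant polynomials
  rcases Nat.lt_or_ge f.natDegree 1 with hd | hd
  · have hc : f = C (f.coeff 0) := eq_C_of_natDegree_eq_zero (by omega)
    have hc0 : f.coeff 0 ≠ 0 := by
      intro h
      rw [h, C_0] at hc
      exact hf.ne_zero hc
    refine (rare_le (max 5 ((f.coeff 0).natAbs + 1))).mono fun p hp hpb => ?_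
    obtain ⟨q, hq, hqd, hqf⟩ := hpb
    rw [hc, eval_C] at hqf
    have h1 : q ≤ (f.coeff 0).natAbs :=
      Nat.le_of_dvd (Nat.pos_of_ne_zero (Int.natAbs_ne_zero.mpr hc0)) (Int.natCast_dvd.mp hqf)
    change p ≤ _
    by_contra hcon
    rw [not_le, max_lt_iff] at hcon
    obtain ⟨k, hk, hkq⟩ := form hp hcon.1 hq hqd
    have h2 : p ≤ k * p := Nat.le_mul_of_pos_left _ hk
    omega
  -- `f(0) = 0`
  by_cases h0 : f.eval 0 = 0
  · have hX : X ∣ f := X_dvd_iff.mpr (by rw [coeff_zero_eq_eval_zero]; exact h0)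
    have hass : Associated X f := (irreducible_X (R := ℤ)).associated_of_dvd hf hX
    refine (rare_le 5).mono fun p hp hpb => ?_
    obtain ⟨q, hq, hqd, hqf⟩ := hpb
    change p ≤ 5
    by_contra hcon
    obtain ⟨k, hk, hkq⟩ := form hp (by omega) hq hqd
    obtain ⟨u, hu⟩ := hass.symm
    have h1 : (q : ℤ) ∣ (p : ℤ) := by
      have h2 : (p : ℤ) = f.eval (p : ℤ) * (u : ℤ[X]).eval (p : ℤ) := by
        rw [← eval_mul, hu, eval_X]
      rw [h2]
      exact hqf.mul_right _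
    have h2 : q ∣ p := by exact_mod_cast h1
    have h3 : q = p := (Nat.prime_dvd_prime_iff_eq hq hp).mp h2
    subst h3
    rcases hkq with h | h
    · have : q ≤ k * q := Nat.le_mul_of_pos_left _ hk
      omega
    · have h4 : q ∣ q + 1 := ⟨k, by rw [h, mul_comm]⟩
      have h5 : q ∣ 1 := (Nat.dvd_add_right (dvd_refl q)).mp h4
      have := Nat.le_of_dvd one_pos h5
      have := hq.two_le
      omega
  -- `f(0) ≠ 0`
  obtain ⟨K, D, hK⟩ := range_a f h0
  rcases Nat.lt_or_ge f.natDegree 2 with hd2 | hd2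
  · -- linear
    have hd1 : f.natDegree = 1 := by omega
    refine ((small (csum f)).union (rare_le (max 5 (f.coeff 0).natAbs))).mono fun p hp hpb => ?_
    obtain ⟨q, hq, hqd, hqf⟩ := hpb
    by_cases hcon : p ≤ max 5 (f.coeff 0).natAbs
    · exact Or.inr hcon
    left
    rw [not_le, max_lt_iff] at hcon
    have he : f.eval (p : ℤ) = f.coeff 0 + f.coeff 1 * p := by
      rw [eval_eq_sum_range, hd1, sum_range_succ, sum_range_one]
      ring
    have hc1 : f.coeff 1 ≠ 0 := by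
      have := leadingCoeff_ne_zero.mpr hf.ne_zero
      rwa [leadingCoeff, hd1] at this
    have hne : f.eval (p : ℤ) ≠ 0 := by
      intro hz
      rw [he] at hz
      have h1 : (f.coeff 0).natAbs = (f.coeff 1).natAbs * p := by
        have h2 : f.coeff 0 = -(f.coeff 1 * p) := by linarith
        rw [h2, Int.natAbs_neg, Int.natAbs_mul, Int.natAbs_natCast]
      have h2 : p ≤ (f.coeff 1).natAbs * p :=
        Nat.le_mul_of_pos_left _ (Nat.pos_of_ne_zero (Int.natAbs_ne_zero.mpr hc1))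
      omega
    have h1 : q ≤ (f.eval (p : ℤ)).natAbs :=
      Nat.le_of_dvd (Nat.pos_of_ne_zero (Int.natAbs_ne_zero.mpr hne)) (Int.natCast_dvd.mp hqf)
    have h2 : (f.eval (p : ℤ)).natAbs ≤ csum f * p := by
      rw [he]
      refine (Int.natAbs_add_le _ _).trans ?_
      rw [Int.natAbs_mul, Int.natAbs_natCast]
      unfold csum
      rw [hd1, sum_range_succ, sum_range_one, add_mul]
      refine Nat.add_le_add_right ?_ _
      exact Nat.le_mul_of_pos_right _ hp.pos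
    exact ⟨q, hq, h1.trans h2, hqd⟩
  · -- degree 2 or 3
    obtain ⟨X3, hX3⟩ := range_b f hf hd2 h3
    have hval := prime_values f hf hd h0
    have hsm := small (K + 1)
    have hle5 := rare_le 5
    intro η hη
    obtain ⟨X1, hX1⟩ := ((hval.union hsm).union hle5) (η / 2) (by linarith)
    obtain ⟨X2, hX2⟩ := tail_small (D + 1) (η / 2) (by linarith)
    refine ⟨max (max X1 X2) X3, fun x hx T hT => ?_⟩
    have hx1 : X1 ≤ x := le_of_max_le_left (le_of_max_le_left hx)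
    have hx2 : X2 ≤ x := le_of_max_le_right (le_of_max_le_left hx)
    have hx3 : X3 ≤ x := le_of_max_le_right hx
    set Y : ℝ := (x : ℝ) / Real.log x ^ 2 with hY
    have hY0 : 0 ≤ Y := by positivity
    set G : Set ℕ := ({p | ∃ q : ℕ, q.Prime ∧ (f.eval (p : ℤ)).natAbs = (f.eval 0).natAbs * q} ∪
      {p | ∃ q : ℕ, q.Prime ∧ q ≤ (K + 1) * p ∧ q ∣ Nat.fib p * lucas p}) ∪ {p | p ≤ 5} with hG
    set T1 := T.filter (· ∈ G) with hT1
    set T2 := (T.filter (· ∉ G)).filter (fun p : ℕ => (p : ℝ) < Y) with hT2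
    set T3 := (T.filter (· ∉ G)).filter (fun p : ℕ => ¬ (p : ℝ) < Y) with hT3
    have hc1 : T.card = T1.card + (T.filter (· ∉ G)).card :=
      (card_filter_add_card_filter_not _).symm
    have hc2 : (T.filter (· ∉ G)).card = T2.card + T3.card := by
      rw [hT2, hT3]
      exact (card_filter_add_card_filter_not _).symm
    have h1 : (T1.card : ℝ) ≤ η / 2 * (Nat.primeCounting x : ℝ) := hX1 x hx1 T1 fun p hp => by
      rw [hT1, mem_filter] at hp
      exact ⟨(hT p hp.1).1, (hT p hp.1).2.1, hp.2⟩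
    have h2 : T2.card ≤ ⌊Y⌋₊ + 1 := by
      calc T2.card ≤ (range (⌊Y⌋₊ + 1)).card := card_le_card fun p hp => by
            rw [hT2, mem_filter] at hp
            exact mem_range.mpr (Nat.lt_succ_of_le (Nat.le_floor hp.2.le))
        _ = _ := card_range _
    have h3' : T3.card ≤ D * ⌊Y⌋₊ := by
      refine hK ⌊Y⌋₊ T3 fun p hp => ?_
      rw [hT3, mem_filter, mem_filter] at hp
      obtain ⟨⟨hpT, hpG⟩, hpY⟩ := hp
      obtain ⟨hpp, hpx, q, hq, hqd, hqf⟩ := hT p hpT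
      have hG1 : ¬ p ≤ 5 := fun h => hpG (Or.inr h)
      have hG2 : ¬ ∃ q : ℕ, q.Prime ∧ q ≤ (K + 1) * p ∧ q ∣ Nat.fib p * lucas p :=
        fun h => hpG (Or.inl (Or.inr h))
      have hG3 : ¬ ∃ q : ℕ, q.Prime ∧ (f.eval (p : ℤ)).natAbs = (f.eval 0).natAbs * q :=
        fun h => hpG (Or.inl (Or.inl h))
      obtain ⟨k, hk, hkq⟩ := form hpp (by omega) hq hqd
      refine ⟨k, q, ?_, ?_, hq, hkq, hqf⟩
      · by_contra hlt
        apply hG2
        refine ⟨q, hq, ?_, hqd⟩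
        have h5 : (k + 1) * p ≤ (K + 1) * p := Nat.mul_le_mul_right _ (by omega)
        have h6 : (k + 1) * p = k * p + p := by ring
        have h7 := hpp.pos
        omega
      · apply Nat.le_floor
        by_contra hlt
        rw [not_le] at hlt
        exact hG3 ⟨q, hq, hX3 x hx3 p k q (not_lt.mp hpY) hpx hlt.le hq hkq hqf⟩
    have h4 := hX2 x hx2
    have h5 : (⌊Y⌋₊ : ℝ) ≤ Y := Nat.floor_le hY0
    have h6 : (T2.card : ℝ) ≤ Y + 1 := by
      have : (T2.card : ℝ) ≤ (⌊Y⌋₊ : ℝ) + 1 := by exact_mod_cast h2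
      linarith
    have h7 : (T3.card : ℝ) ≤ D * Y := by
      have h8 : (T3.card : ℝ) ≤ D * (⌊Y⌋₊ : ℝ) := by exact_mod_cast h3'
      exact h8.trans (mul_le_mul_of_nonneg_left h5 (Nat.cast_nonneg _))
    have h8 : (D : ℝ) * Y ≤ D * (Y + 1) := mul_le_mul_of_nonneg_left (by linarith) (Nat.cast_nonneg _)
    rw [hc1, hc2]
    push_cast at h4 ⊢
    nlinarith

theorem poly_rare (f : ℤ[X]) (hf : f ≠ 0)
    (h3 : ∀ g : ℤ[X], Irreducible g → g ∣ f → g.natDegree ≤ 3) :
    Rare {p | ∃ q : ℕ, q.Prime ∧ q ∣ Nat.fib p * lucas p ∧ (q : ℤ) ∣ f.eval (p : ℤ)} := by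
  change Rare (Bad f)
  revert hf h3
  refine WfDvdMonoid.induction_on_irreducible f ?_ ?_ ?_
  · intro h; exact absurd rfl h
  · intro u hu _ _
    refine (rare_le 1).mono fun p hp hpb => ?_
    exfalso
    obtain ⟨q, hq, _, hqf⟩ := hpb
    have h1 : IsUnit (u.eval (p : ℤ)) := hu.map (evalRingHom (p : ℤ))
    have h2 : (q : ℤ) ∣ 1 := hqf.trans (isUnit_iff_dvd_one.mp h1)
    have h3 : q ∣ 1 := by exact_mod_cast h2
    exact hq.one_lt.ne' (Nat.dvd_one.mp h3)
  · intro a g ha hg ih _ h3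
    have h4 : Rare (Bad g) := rare_irr g hg (h3 g hg (dvd_mul_right g a))
    have h5 : Rare (Bad a) := ih ha fun g' hg' hd => h3 g' hg' (hd.mul_left g)
    refine (h4.union h5).mono fun p hp hpb => ?_
    obtain ⟨q, hq, hqd, hqf⟩ := hpb
    rw [eval_mul] at hqf
    rcases (Nat.prime_iff_prime_int.mp hq).dvd_or_dvd hqf with h | h
    · exact Or.inl ⟨q, hq, hqd, h⟩
    · exact Or.inr ⟨q, hq, hqd, h⟩

/-- the same as a limit, with `U_(2p) = U_p V_p` -/
theorem poly_rare_tendsto (f : ℤ[X]) (hf : f ≠ 0)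
    (h3 : ∀ g : ℤ[X], Irreducible g → g ∣ f → g.natDegree ≤ 3) :
    Filter.Tendsto (fun x : ℕ => ((@Finset.filter ℕ (fun p => p.Prime ∧ ∃ q : ℕ, q.Prime ∧
      q ∣ Nat.fib (2 * p) ∧ (q : ℤ) ∣ f.eval (p : ℤ)) (Classical.decPred _) (Finset.Icc 1 x)).card : ℝ)
        / (Nat.primeCounting x : ℝ)) Filter.atTop (nhds 0) := by
  rw [Metric.tendsto_atTop]
  intro ε hε
  obtain ⟨X, hX⟩ := poly_rare f hf h3 (ε / 2) (by linarith)
  refine ⟨max X 2, fun x hx => ?_⟩
  have hx2 : 2 ≤ x := le_of_max_le_right hx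
  have hπ : (0 : ℝ) < Nat.primeCounting x := by
    have h1 : 0 < Nat.primeCounting x := by
      have := Nat.monotone_primeCounting hx2
      have h2 : Nat.primeCounting 2 = 1 := by decide
      omega
    exact_mod_cast h1
  have h1 := hX x (le_of_max_le_left hx) (@Finset.filter ℕ (fun p => p.Prime ∧ ∃ q : ℕ, q.Prime ∧
      q ∣ Nat.fib (2 * p) ∧ (q : ℤ) ∣ f.eval (p : ℤ)) (Classical.decPred _) (Finset.Icc 1 x))
      fun p hp => by
    have hp' := (@Finset.mem_filter ℕ _ (Classical.decPred _) _ _).mp hp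
    rw [mem_Icc] at hp'
    obtain ⟨⟨_, hpx⟩, hpp, q, hq, hqd, hqf⟩ := hp'
    rw [← fib_mul_lucas] at hqd
    exact ⟨hpp, hpx, q, hq, hqd, hqf⟩
  rw [Real.dist_eq, sub_zero, abs_of_nonneg (by positivity), div_lt_iff₀ hπ]
  nlinarith

end Pool.Agent.Lib.MP_5893d7_nt.Pr
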