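import Pool.Agent.Lib.MP_5893d7_nt.Count

/-! Sets of primes of relative density zero. -/

set_option autoImplicit false

namespace Pool.Agent.Lib.MP_5893d7_nt.Pr

open Finset

/-- The primes of the set `A` have relative density zero among the primes. -/
def Rare (A : Set ℕ) : Prop := ∀ η : ℝ, 0 < η → ∃ X : ℕ, ∀ x : ℕ, X ≤ x → ∀ T : Finset ℕ,
  (∀ p ∈ T, p.Prime ∧ p ≤ x ∧ p ∈ A) → (T.card : ℝ) ≤ η * (Nat.primeCounting x : ℝ)

end Pool.Agent.Lib.MP_5893d7_nt.Pr
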