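import Pool.Agent.Lib.MP_5893d7_nt.Pr.Defs
import Pool.Agent.Lib.MP_3e612f_nt.NF.U.BT

/-! Primes which avoid one nonzero residue class modulo each prime of a finite set. -/

set_option autoImplicit false

namespace Pool.Agent.Lib.MP_5893d7_nt.Pr

open Finset

private theorem av_tot (S : Finset ℕ) (h : ∀ l ∈ S, l.Prime) :
    ((∏ l ∈ S, l).totient : ℝ) = ∏ l ∈ S, ((l : ℝ) - 1) := by
  classical
  induction S using Finset.induction_on with
  | empty => simp
  | insert a s ha ih =>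
    have hp : a.Prime := h a (mem_insert_self a s)
    have hs : ∀ l ∈ s, l.Prime := fun l hl => h l (mem_insert_of_mem hl)
    have hc : Nat.Coprime a (∏ l ∈ s, l) := by
      apply Nat.Coprime.prod_right
      intro l hl
      exact (Nat.coprime_primes hp (hs l hl)).2 (fun e => ha (e ▸ hl))
    rw [prod_insert ha, prod_insert ha, Nat.totient_mul hc, Nat.totient_prime hp, Nat.cast_mul,
      ih hs, Nat.cast_sub hp.one_le]
    simp

private theorem av_one (l : ℕ) (r : ℤ) (hl : 2 < l) (hr : ¬ (l : ℤ) ∣ r) :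
    ((range l).filter (fun v : ℕ => ¬ (l : ℤ) ∣ (v : ℤ) ∧ ¬ (l : ℤ) ∣ (v : ℤ) - r)).card ≤ l - 2 := by
  classical
  have hl0 : (0 : ℤ) < l := by omega
  obtain ⟨t, ht⟩ : ∃ t : ℕ, (t : ℤ) = r % (l : ℤ) :=
    ⟨(r % (l : ℤ)).toNat, Int.toNat_of_nonneg (Int.emod_nonneg _ hl0.ne')⟩
  have ht1 : t < l := by
    have := Int.emod_lt_of_pos r hl0
    omega
  have ht0 : t ≠ 0 := by
    intro e
    apply hr
    apply Int.dvd_of_emod_eq_zero
    rw [← ht, e]; rfl
  have hd : (l : ℤ) ∣ (t : ℤ) - r := by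
    rw [ht]
    exact Int.dvd_emod_sub_self
  have hsub : (range l).filter (fun v : ℕ => ¬ (l : ℤ) ∣ (v : ℤ) ∧ ¬ (l : ℤ) ∣ (v : ℤ) - r) ⊆
      ((range l).erase 0).erase t := by
    intro v hv
    rw [mem_filter] at hv
    rw [mem_erase, mem_erase]
    refine ⟨?_, ?_, hv.1⟩
    · rintro rfl
      exact hv.2.2 hd
    · rintro rfl
      exact hv.2.1 (by simp)
  refine le_trans (card_le_card hsub) ?_
  rw [card_erase_of_mem, card_erase_of_mem, card_range]
  · omega
  · rw [mem_range]; omega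
  · rw [mem_erase, mem_range]; exact ⟨ht0, ht1⟩

private theorem av_card (S : Finset ℕ) (r : ℕ → ℤ)
    (h : ∀ l ∈ S, l.Prime ∧ 2 < l ∧ ¬ (l : ℤ) ∣ r l) :
    (((range (∏ l ∈ S, l)).filter
      (fun u : ℕ => ∀ l ∈ S, ¬ (l : ℤ) ∣ (u : ℤ) ∧ ¬ (l : ℤ) ∣ (u : ℤ) - r l)).card : ℝ) ≤
      ((∏ l ∈ S, l).totient : ℝ) * ∏ l ∈ S, (1 - 1 / (l : ℝ)) := by
  classical
  have h1 : ((range (∏ l ∈ S, l)).filter
      (fun u : ℕ => ∀ l ∈ S, ¬ (l : ℤ) ∣ (u : ℤ) ∧ ¬ (l : ℤ) ∣ (u : ℤ) - r l)).card ≤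
      (S.pi (fun l => (range l).filter
        (fun v : ℕ => ¬ (l : ℤ) ∣ (v : ℤ) ∧ ¬ (l : ℤ) ∣ (v : ℤ) - r l))).card := by
    refine card_le_card_of_injOn (fun u => fun l _ => u % l) ?_ ?_
    · intro u hu
      rw [mem_coe, mem_filter] at hu
      rw [mem_coe, mem_pi]
      intro l hl
      have e : (l : ℤ) ∣ (u : ℤ) - ((u % l : ℕ) : ℤ) := by
        rw [Int.natCast_mod]
        exact Int.dvd_self_sub_emod
      rw [mem_filter, mem_range]
      refine ⟨Nat.mod_lt _ (h l hl).1.pos, ?_, ?_⟩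
      · intro h2
        apply (hu.2 l hl).1
        have := dvd_add e h2
        simpa using this
      · intro h2
        apply (hu.2 l hl).2
        have := dvd_add e h2
        have e2 : (u : ℤ) - ((u % l : ℕ) : ℤ) + (((u % l : ℕ) : ℤ) - r l) = (u : ℤ) - r l := by ring
        rwa [e2] at this
    · intro u hu v hv huv
      rw [mem_coe, mem_filter, mem_range] at hu hv
      have hdv : ∏ l ∈ S, (l : ℤ) ∣ (u : ℤ) - (v : ℤ) := by
        apply Finset.prod_dvd_of_coprime
        · intro a ha b hb hab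
          exact Nat.isCoprime_iff_coprime.2
            ((Nat.coprime_primes (h a ha).1 (h b hb).1).2 hab)
        · intro l hl
          have e := congrFun (congrFun huv l) hl
          simp only at e
          have e3 : (u : ℤ) % (l : ℤ) = (v : ℤ) % (l : ℤ) := by exact_mod_cast e
          exact Int.ModEq.dvd e3.symm
      have hdv' : ((∏ l ∈ S, l : ℕ) : ℤ) ∣ (u : ℤ) - (v : ℤ) := by
        push_cast
        exact hdv
      have h0 := Int.eq_zero_of_abs_lt_dvd hdv' (by rw [abs_lt]; omega)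
      omega
  have h2 : ((S.pi (fun l => (range l).filter
        (fun v : ℕ => ¬ (l : ℤ) ∣ (v : ℤ) ∧ ¬ (l : ℤ) ∣ (v : ℤ) - r l))).card : ℝ) ≤
      ∏ l ∈ S, (((l : ℝ) - 1) * (1 - 1 / (l : ℝ))) := by
    rw [card_pi]
    push_cast
    apply prod_le_prod
    · intro l _; positivity
    · intro l hl
      have h3 := av_one l (r l) (h l hl).2.1 (h l hl).2.2
      have h4 : (2 : ℝ) < l := by exact_mod_cast (h l hl).2.1
      have h5 : (((range l).filter
        (fun v : ℕ => ¬ (l : ℤ) ∣ (v : ℤ) ∧ ¬ (l : ℤ) ∣ (v : ℤ) - r l)).card : ℝ) ≤ (l : ℝ) - 2 := by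
        have : (((range l).filter
          (fun v : ℕ => ¬ (l : ℤ) ∣ (v : ℤ) ∧ ¬ (l : ℤ) ∣ (v : ℤ) - r l)).card : ℝ) ≤ ((l - 2 : ℕ) : ℝ) := by
          exact_mod_cast h3
        rwa [Nat.cast_sub (h l hl).2.1.le, Nat.cast_ofNat] at this
      refine le_trans h5 ?_
      have h6 : ((l : ℝ) - 1) * (1 - 1 / (l : ℝ)) = (l : ℝ) - 2 + 1 / (l : ℝ) := by
        field_simp
        ring
      rw [h6]
      have : 0 < 1 / (l : ℝ) := by positivity
      linarith
  rw [av_tot S (fun l hl => (h l hl).1), ← prod_mul_distrib]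
  exact le_trans (by exact_mod_cast h1) h2

/-- Proof. `M = ∏ l`, `l ∈ S`. The primes `p ∈ (√x, x + √x]` in the class `u` modulo `M` are at most
`C x / (φ(M) log x)` for large `x` (`bt_short` with `X = y = √x`, `h = x`, `r = M`), and there are
`∏ (l - 2) ≤ φ(M) ∏ (1 - 1 / l)` classes `u` prime to `M` with `u ≠ r l` modulo every `l ∈ S`
(Chinese remainder theorem). The primes up to `√x` are negligible; `pi_lower` of Count. -/
theorem avoid : ∃ C : ℝ, 0 < C ∧ ∀ (S : Finset ℕ) (r : ℕ → ℤ),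
    (∀ l ∈ S, l.Prime ∧ 2 < l ∧ ¬ (l : ℤ) ∣ r l) → ∃ X : ℕ, ∀ x : ℕ, X ≤ x → ∀ T : Finset ℕ,
      (∀ p ∈ T, p.Prime ∧ p ≤ x ∧ ∀ l ∈ S, ¬ (l : ℤ) ∣ (p : ℤ) - r l) →
      (T.card : ℝ) ≤ C * (∏ l ∈ S, (1 - 1 / (l : ℝ))) * (Nat.primeCounting x : ℝ) := by
  classical
  obtain ⟨C, hC, X₀, hbt⟩ := Pool.Agent.Lib.MP_3e612f_nt.NF.bt_short
  refine ⟨800 * C + 400, by positivity, ?_⟩
  intro S r h
  set M : ℕ := ∏ l ∈ S, l with hM
  set P : ℝ := ∏ l ∈ S, (1 - 1 / (l : ℝ)) with hP
  set U : Finset ℕ := (range M).filter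
      (fun u : ℕ => ∀ l ∈ S, ¬ (l : ℤ) ∣ (u : ℤ) ∧ ¬ (l : ℤ) ∣ (u : ℤ) - r l) with hU
  have hU1 : (U.card : ℝ) ≤ (M.totient : ℝ) * P := av_card S r h
  have hM1 : 1 ≤ M := Finset.prod_pos (fun l hl => (h l hl).1.pos)
  have hP0 : 0 < P := by
    apply Finset.prod_pos
    intro l hl
    have h4 : (2 : ℝ) < l := by exact_mod_cast (h l hl).2.1
    have h5 : 1 / (l : ℝ) < 1 := by
      rw [div_lt_one (by linarith)]
      linarith
    linarith
  obtain ⟨N₁, hN₁⟩ := exists_nat_ge ((64 / P ^ 2) ^ 2)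
  refine ⟨N₁ + (X₀ + M ^ 16 + 16) ^ 2, ?_⟩
  intro x hx T hT
  set s : ℕ := Nat.sqrt x with hs
  have hs1 : X₀ + M ^ 16 + 16 ≤ s := by
    rw [hs, Nat.le_sqrt']
    omega
  have hMp : M ≤ M ^ 16 := Nat.le_self_pow (by norm_num) M
  have hss : s ^ 2 ≤ x := Nat.sqrt_le' x
  have hss2 : x < (s + 1) ^ 2 := Nat.lt_succ_sqrt' x
  have hx16 : 16 ≤ s := by omega
  have hxs : s ≤ x := by nlinarith
  have hx256 : 256 ≤ x := by nlinarith
  have hxR : (256 : ℝ) ≤ x := by exact_mod_cast hx256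
  have hlog : 0 < Real.log x := Real.log_pos (by linarith)
  have hpi := pi_lower x (by omega)
  -- the logarithm of the root
  have hsR : (16 : ℝ) ≤ s := by exact_mod_cast hx16
  have hlogs : Real.log x / 4 ≤ Real.log s := by
    have h1 : (x : ℝ) ≤ (s : ℝ) ^ 4 := by
      have e : x ≤ s ^ 4 := by
        have e1 : s + 1 ≤ s * s := by nlinarith
        have e2 : (s + 1) ^ 2 ≤ (s * s) ^ 2 := Nat.pow_le_pow_left e1 2
        calc x ≤ (s + 1) ^ 2 := hss2.le
          _ ≤ (s * s) ^ 2 := e2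
          _ = s ^ 4 := by ring
      exact_mod_cast e
    have h2 : Real.log x ≤ Real.log ((s : ℝ) ^ 4) := Real.log_le_log (by linarith) h1
    rw [Real.log_pow] at h2
    push_cast at h2
    linarith
  have hlogs0 : 0 < Real.log s := by linarith
  -- the small primes
  have hsmall : (s : ℝ) + 1 ≤ P * ((x : ℝ) / Real.log x) := by
    have h1 := Pool.Agent.Lib.MP_60b32f_nt.log_sq_le (x : ℝ) (by linarith)
    set w := Real.sqrt (x : ℝ) with hw
    have hw2 : w ^ 2 = x := Real.sq_sqrt (by linarith)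
    have hw0 : 0 ≤ w := Real.sqrt_nonneg _
    have hw16 : 16 ≤ w := by
      by_contra hcon
      push Not at hcon
      nlinarith
    have hsw : (s : ℝ) ≤ w := by
      have e : ((s : ℝ)) ^ 2 ≤ w ^ 2 := by
        rw [hw2]; exact_mod_cast hss
      nlinarith
    have hPw : 64 / P ^ 2 ≤ w := by
      have e : (64 / P ^ 2) ^ 2 ≤ w ^ 2 := by
        rw [hw2]
        refine le_trans hN₁ ?_
        have : N₁ ≤ x := by omega
        exact_mod_cast this
      have e0 : 0 < 64 / P ^ 2 := by positivity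
      nlinarith
    have h2 : 64 ≤ P ^ 2 * w := by
      rw [div_le_iff₀ (by positivity)] at hPw
      linarith
    have h3 : 2 * Real.log x ≤ P * w := by
      have e : (2 * Real.log x) ^ 2 ≤ (P * w) ^ 2 := by nlinarith
      have e1 : 0 < P * w := by nlinarith
      nlinarith
    have h4 : ((s : ℝ) + 1) * Real.log x ≤ P * x := by
      have : ((s : ℝ) + 1) ≤ 2 * w := by linarith
      calc ((s : ℝ) + 1) * Real.log x ≤ (2 * w) * Real.log x :=
            mul_le_mul_of_nonneg_right this hlog.le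
        _ = w * (2 * Real.log x) := by ring
        _ ≤ w * (P * w) := mul_le_mul_of_nonneg_left h3 hw0
        _ = P * x := by rw [← hw2]; ring
    rw [← mul_div_assoc, le_div_iff₀ hlog]
    exact h4
  -- the large primes
  have hcov : T ⊆ range (s + 1) ∪ U.biUnion (fun u =>
      (Ioc s (s + x)).filter (fun p => p.Prime ∧ p % M = u % M)) := by
    intro p hp
    obtain ⟨hp1, hp2, hp3⟩ := hT p hp
    rw [mem_union]
    by_cases hps : p ≤ s
    · left
      rw [mem_range]; omega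
    · right
      push Not at hps
      rw [mem_biUnion]
      refine ⟨p % M, ?_, ?_⟩
      · rw [hU, mem_filter, mem_range]
        refine ⟨Nat.mod_lt _ hM1, fun l hl => ?_⟩
        have hlM : l ∣ M := Finset.dvd_prod_of_mem _ hl
        have e : (l : ℤ) ∣ (p : ℤ) - ((p % M : ℕ) : ℤ) := by
          have e1 : (M : ℤ) ∣ (p : ℤ) - ((p % M : ℕ) : ℤ) := by
            rw [Int.natCast_mod]
            exact Int.dvd_self_sub_emod
          exact dvd_trans (Int.natCast_dvd_natCast.2 hlM) e1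
        constructor
        · intro h2
          have h3 := dvd_add e h2
          have h4 : (l : ℤ) ∣ (p : ℤ) := by simpa using h3
          have h5 : l ∣ p := Int.natCast_dvd_natCast.1 h4
          have h6 := (Nat.prime_dvd_prime_iff_eq (h l hl).1 hp1).1 h5
          have h7 : l ≤ M := Nat.le_of_dvd hM1 hlM
          omega
        · intro h2
          apply hp3 l hl
          have h3 := dvd_add e h2
          have e2 : (p : ℤ) - ((p % M : ℕ) : ℤ) + (((p % M : ℕ) : ℤ) - r l) = (p : ℤ) - r l := by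
            ring
          rwa [e2] at h3
      · rw [mem_filter, mem_Ioc]
        refine ⟨⟨hps, by omega⟩, hp1, ?_⟩
        rw [Nat.mod_mod]
  have hone : ∀ u ∈ U, (((Ioc s (s + x)).filter (fun p => p.Prime ∧ p % M = u % M)).card : ℝ) ≤
      C * ((x : ℝ) / ((M.totient : ℝ) * Real.log s)) := by
    intro u hu
    rw [hU, mem_filter] at hu
    refine hbt s (by omega) s x M u le_rfl hM1 (by omega) ?_ (by nlinarith)
    rw [hM]
    apply Nat.Coprime.prod_right
    intro l hl
    rw [Nat.coprime_comm, (h l hl).1.coprime_iff_not_dvd]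
    intro h2
    exact (hu.2 l hl).1 (Int.natCast_dvd_natCast.2 h2)
  have htot : (0 : ℝ) < (M.totient : ℝ) := by exact_mod_cast Nat.totient_pos.2 hM1
  have hcard : (T.card : ℝ) ≤ ((s : ℝ) + 1) +
      (U.card : ℝ) * (C * ((x : ℝ) / ((M.totient : ℝ) * Real.log s))) := by
    have h1 : T.card ≤ (s + 1) + ∑ u ∈ U,
        ((Ioc s (s + x)).filter (fun p => p.Prime ∧ p % M = u % M)).card := by
      refine le_trans (card_le_card hcov) (le_trans (card_union_le _ _) ?_)
      rw [card_range]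
      exact Nat.add_le_add_left card_biUnion_le _
    have h2 : (T.card : ℝ) ≤ ((s : ℝ) + 1) + ∑ u ∈ U,
        (((Ioc s (s + x)).filter (fun p => p.Prime ∧ p % M = u % M)).card : ℝ) := by
      exact_mod_cast h1
    refine le_trans h2 ?_
    have h3 := Finset.sum_le_sum hone
    rw [sum_const, nsmul_eq_mul] at h3
    linarith
  have hbig : (U.card : ℝ) * (C * ((x : ℝ) / ((M.totient : ℝ) * Real.log s))) ≤
      4 * C * P * ((x : ℝ) / Real.log x) := by
    have h1 : (x : ℝ) / Real.log s ≤ 4 * ((x : ℝ) / Real.log x) := by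
      rw [div_le_iff₀ hlogs0]
      have e : 4 * ((x : ℝ) / Real.log x) * Real.log s =
          (x : ℝ) * (4 * Real.log s / Real.log x) := by ring
      rw [e]
      have e2 : 1 ≤ 4 * Real.log s / Real.log x := by
        rw [le_div_iff₀ hlog]; linarith
      exact le_mul_of_one_le_right (by linarith) e2
    calc (U.card : ℝ) * (C * ((x : ℝ) / ((M.totient : ℝ) * Real.log s)))
        ≤ ((M.totient : ℝ) * P) * (C * ((x : ℝ) / ((M.totient : ℝ) * Real.log s))) :=
          mul_le_mul_of_nonneg_right hU1 (by positivity)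
      _ = C * P * ((x : ℝ) / Real.log s) := by field_simp
      _ ≤ C * P * (4 * ((x : ℝ) / Real.log x)) :=
          mul_le_mul_of_nonneg_left h1 (by positivity)
      _ = 4 * C * P * ((x : ℝ) / Real.log x) := by ring
  have hfin : (T.card : ℝ) ≤ (1 + 4 * C) * P * ((x : ℝ) / Real.log x) := by
    calc (T.card : ℝ) ≤ P * ((x : ℝ) / Real.log x) + 4 * C * P * ((x : ℝ) / Real.log x) := by
          linarith
      _ = (1 + 4 * C) * P * ((x : ℝ) / Real.log x) := by ring
  have hpi0 : (0 : ℝ) ≤ (Nat.primeCounting x : ℝ) := Nat.cast_nonneg _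
  calc (T.card : ℝ) ≤ (1 + 4 * C) * P * ((x : ℝ) / Real.log x) := hfin
    _ ≤ (1 + 4 * C) * P * (200 * (Nat.primeCounting x : ℝ)) :=
        mul_le_mul_of_nonneg_left hpi (by positivity)
    _ = (800 * C + 200) * (P * (Nat.primeCounting x : ℝ)) := by ring
    _ ≤ (800 * C + 400) * (P * (Nat.primeCounting x : ℝ)) :=
        mul_le_mul_of_nonneg_right (by linarith) (by positivity)
    _ = (800 * C + 400) * P * (Nat.primeCounting x : ℝ) := by ring

end Pool.Agent.Lib.MP_5893d7_nt.Pr
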