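import Pool.Agent.Lib.MP_d0f9e0_co.FD.NoSplit

/-! The sum of the inverse norms of the prime ideals of a number field diverges. -/

set_option autoImplicit false

namespace Pool.Agent.Lib.MP_5893d7_nt.Pr

open Finset NumberField IsDedekindDomain Filter Topology
open scoped ENNReal
open Pool.Agent.MP_d0f9e0_co.FD

private theorem geom_le {u : ℝ} (h0 : 0 ≤ u) (h1 : u ≤ 1 / 2) :
    (∑' k : ℕ, (ENNReal.ofReal u) ^ k) ≤ ENNReal.ofReal (Real.exp (2 * u)) := by
  rw [ENNReal.tsum_geometric]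
  have h2 : (1 : ℝ≥0∞) - ENNReal.ofReal u = ENNReal.ofReal (1 - u) := by
    rw [ENNReal.ofReal_sub _ h0, ENNReal.ofReal_one]
  rw [h2, ← ENNReal.ofReal_inv_of_pos (by linarith)]
  apply ENNReal.ofReal_le_ofReal
  rw [inv_le_iff_one_le_mul₀ (by linarith)]
  nlinarith [Real.add_one_le_exp (2 * u)]

private theorem zS_empty {P : Type*} (w : P → ℝ≥0∞) : zS w (∅ : Set P) ≤ 1 := by
  unfold zS
  rw [tsum_eq_single (⟨0, fun x hx => absurd hx (Multiset.notMem_zero x)⟩ :
    {m : Multiset P // ∀ x ∈ m, x ∈ (∅ : Set P)})]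
  · simp
  · rintro ⟨m, hm⟩ hne
    exfalso
    apply hne
    apply Subtype.ext
    exact Multiset.eq_zero_of_forall_notMem fun x hx => hm x hx

private theorem zS_fin {P : Type*} (u : P → ℝ) (h0 : ∀ p, 0 ≤ u p) (h1 : ∀ p, u p ≤ 1 / 2)
    (T : Finset P) : zS (fun p => ENNReal.ofReal (u p)) (T : Set P)
      ≤ ENNReal.ofReal (Real.exp (2 * ∑ p ∈ T, u p)) := by
  classical
  induction T using Finset.induction_on with
  | empty =>
    rw [sum_empty, mul_zero, Real.exp_zero, ENNReal.ofReal_one, coe_empty]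
    exact zS_empty _
  | insert a T ha ih =>
    rw [coe_insert, sum_insert ha, mul_add, Real.exp_add, ENNReal.ofReal_mul (Real.exp_pos _).le]
    exact (zS_insert_le _ _ a).trans (mul_le_mul' (geom_le (h0 a) (h1 a)) ih)

private theorem zS_univ_le {P : Type*} (w : P → ℝ≥0∞) (C : ℝ≥0∞)
    (h : ∀ T : Finset P, zS w (T : Set P) ≤ C) : zS w Set.univ ≤ C := by
  classical
  have key : ∀ A : Finset {m : Multiset P // ∀ x ∈ m, x ∈ (Set.univ : Set P)},
      ∑ m ∈ A, (m.1.map w).prod ≤ C := by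
    intro A
    let T : Finset P := A.biUnion (fun m => m.1.toFinset)
    refine le_trans ?_ (h T)
    let φ : {m // m ∈ A} → {m : Multiset P // ∀ x ∈ m, x ∈ (T : Set P)} := fun m =>
      ⟨m.1.1, fun x hx => mem_coe.mpr (mem_biUnion.mpr ⟨m.1, m.2, Multiset.mem_toFinset.mpr hx⟩)⟩
    have hφ : Function.Injective φ := by
      intro a b hab
      have h1 : (φ a).1 = (φ b).1 := by rw [hab]
      exact Subtype.ext (Subtype.ext h1)
    have h2 := ENNReal.tsum_comp_le_tsum_of_injective hφ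
      (fun m : {m : Multiset P // ∀ x ∈ m, x ∈ (T : Set P)} => (m.1.map w).prod)
    refine le_trans (le_of_eq ?_) h2
    rw [← sum_attach, tsum_fintype]
    rfl
  unfold zS
  rw [ENNReal.tsum_eq_iSup_sum]
  exact iSup_le key

theorem sum_norm (K : Type) [Field K] [NumberField K] (B : ℝ) :
    ∃ T : Finset (HeightOneSpectrum (𝓞 K)), B ≤ ∑ p ∈ T, ((Ideal.absNorm p.asIdeal : ℕ) : ℝ)⁻¹ := by
  by_contra hcon
  push Not at hcon
  have hle : ∀ s : ℝ, 1 ≤ s → zS (wt K s) Set.univ ≤ ENNReal.ofReal (Real.exp (2 * B)) := by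
    intro s hs
    refine zS_univ_le _ _ fun T => ?_
    have h0 : ∀ p : HeightOneSpectrum (𝓞 K), 0 ≤ ((Ideal.absNorm p.asIdeal : ℝ)) ^ (-s) :=
      fun p => Real.rpow_nonneg (Nat.cast_nonneg _) _
    have h2 : ∀ p : HeightOneSpectrum (𝓞 K), (2 : ℝ) ≤ (Ideal.absNorm p.asIdeal : ℝ) :=
      fun p => by exact_mod_cast two_le_absNorm K p
    have h3 : ∀ p : HeightOneSpectrum (𝓞 K),
        ((Ideal.absNorm p.asIdeal : ℝ)) ^ (-s) ≤ ((Ideal.absNorm p.asIdeal : ℕ) : ℝ)⁻¹ := by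
      intro p
      rw [← Real.rpow_neg_one]
      exact Real.rpow_le_rpow_of_exponent_le (by linarith [h2 p]) (by linarith)
    have h4 : ∀ p : HeightOneSpectrum (𝓞 K), ((Ideal.absNorm p.asIdeal : ℝ)) ^ (-s) ≤ 1 / 2 := by
      intro p
      refine (h3 p).trans ?_
      rw [one_div]
      exact inv_anti₀ (by norm_num) (h2 p)
    refine (zS_fin (fun p : HeightOneSpectrum (𝓞 K) => ((Ideal.absNorm p.asIdeal : ℝ)) ^ (-s))
      h0 h4 T).trans ?_
    apply ENNReal.ofReal_le_ofReal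
    apply Real.exp_le_exp.mpr
    have h5 : ∑ p ∈ T, ((Ideal.absNorm p.asIdeal : ℝ)) ^ (-s) ≤ B :=
      (sum_le_sum fun p _ => h3 p).trans (hcon T).le
    linarith
  have hr := tendsto_sub_one_mul_dedekindZeta_nhdsGT K
  have hne : ∀ᶠ s : ℝ in 𝓝[>] 1, dedekindZeta K s ≠ 0 := by
    have := hr.eventually_ne (Complex.ofReal_ne_zero.mpr (dedekindZeta_residue_ne_zero K))
    filter_upwards [this] with s hs h0
    exact hs (by rw [h0, mul_zero])
  have hgt : ∀ᶠ s : ℝ in 𝓝[>] 1, 1 < s := eventually_mem_nhdsWithin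
  have hb : ∀ᶠ s : ℝ in 𝓝[>] 1, ‖((s : ℂ) - 1) * dedekindZeta K s‖ ≤ (s - 1) * Real.exp (2 * B) := by
    filter_upwards [hne, hgt] with s h1 h3
    have h5 := hle s h3.le
    rw [zeta_eq K s h1, ENNReal.ofReal_le_ofReal_iff (Real.exp_pos _).le] at h5
    have h4 : ‖((s : ℂ) - 1)‖ = s - 1 := by
      rw [← Complex.ofReal_one, ← Complex.ofReal_sub, Complex.norm_real, Real.norm_eq_abs,
        abs_of_pos (by linarith)]
    rw [norm_mul, h4]
    exact mul_le_mul_of_nonneg_left h5 (by linarith)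
  have hlim2 : Tendsto (fun s : ℝ => (s - 1) * Real.exp (2 * B)) (𝓝[>] 1)
      (𝓝 ((1 - 1) * Real.exp (2 * B))) := by
    have h6 : Tendsto (fun s : ℝ => s - 1) (𝓝 1) (𝓝 (1 - 1)) :=
      (continuous_id.sub continuous_const).tendsto 1
    exact (h6.mono_left nhdsWithin_le_nhds).mul_const _
  have hlim := le_of_tendsto_of_tendsto hr.norm hlim2 hb
  rw [sub_self, zero_mul] at hlim
  have hpos : 0 < ‖(dedekindZeta_residue K : ℂ)‖ := by
    rw [norm_pos_iff]
    exact Complex.ofReal_ne_zero.mpr (dedekindZeta_residue_ne_zero K)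
  linarith

end Pool.Agent.Lib.MP_5893d7_nt.Pr
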